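import Pool.Agent.MP_943ae2_gt.Rc.Stm

open scoped Manifold ContDiff RealInnerProductSpace Topology
open Set MeasureTheory

noncomputable section

namespace Pool.Agent.MP_943ae2_gt

section
variable {F : Type} [NormedAddCommGroup F] [NormedSpace ℝ F] {x : E2}

theorem rc_congr {g h : E2 → F} (e : g =ᶠ[𝓝 x] h) (i : Fin 2) : pd g i x = pd h i x := by
  unfold pd; rw [e.fderiv_eq]

theorem rc_ev {g h : E2 → F} (e : g =ᶠ[𝓝 x] h) (i : Fin 2) : pd g i =ᶠ[𝓝 x] pd h i :=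
  e.eventually_nhds.mono fun _ hy => rc_congr hy i

theorem rc_diff {G : Type} [NormedAddCommGroup G] [NormedSpace ℝ G] {g : G → F} {y : G}
    (h : ContDiffAt ℝ ∞ g y) : DifferentiableAt ℝ g y := h.differentiableAt (by simp)

theorem rc_evdiff {g : E2 → F} (h : ContDiffAt ℝ ∞ g x) : ∀ᶠ y in 𝓝 x, DifferentiableAt ℝ g y :=
  ((h.of_le (m := 1) (by simp)).eventually (by simp)).mono fun _ hy =>
    hy.differentiableAt (by simp)

theorem rc_add {g h : E2 → F} (hg : DifferentiableAt ℝ g x) (hh : DifferentiableAt ℝ h x)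
    (i : Fin 2) : pd (fun y => g y + h y) i x = pd g i x + pd h i x := by
  unfold pd; rw [fderiv_fun_add hg hh]; rfl

theorem rc_sub {g h : E2 → F} (hg : DifferentiableAt ℝ g x) (hh : DifferentiableAt ℝ h x)
    (i : Fin 2) : pd (fun y => g y - h y) i x = pd g i x - pd h i x := by
  unfold pd; rw [fderiv_fun_sub hg hh]; rfl

theorem rc_smul {c : E2 → ℝ} {h : E2 → F} (hc : DifferentiableAt ℝ c x)
    (hh : DifferentiableAt ℝ h x) (i : Fin 2) :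
    pd (fun y => c y • h y) i x = c x • pd h i x + pd c i x • h x := by
  unfold pd; rw [fderiv_fun_smul hc hh]; simp

theorem rc_mul {c h : E2 → ℝ} (hc : DifferentiableAt ℝ c x) (hh : DifferentiableAt ℝ h x)
    (i : Fin 2) : pd (fun y => c y * h y) i x = c x * pd h i x + pd c i x * h x :=
  rc_smul hc hh i

theorem rc_comp {a : E2 → ℝ} {G : ℝ → ℝ} {g : ℝ} (hG : HasDerivAt G g (a x))
    (ha : DifferentiableAt ℝ a x) (i : Fin 2) : pd (fun y => G (a y)) i x = g * pd a i x := by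
  have h : HasFDerivAt (fun y => G (a y)) _ x := hG.comp_hasFDerivAt x ha.hasFDerivAt
  unfold pd
  rw [h.fderiv]
  simp

theorem rc_inner {g h : E2 → E3} (hg : DifferentiableAt ℝ g x) (hh : DifferentiableAt ℝ h x)
    (i : Fin 2) : pd (fun y => ⟪g y, h y⟫) i x = ⟪g x, pd h i x⟫ + ⟪pd g i x, h x⟫ := by
  unfold pd; rw [fderiv_inner_apply ℝ hg hh]

theorem rc_proj {n : ℕ} {g : E2 → EuclideanSpace ℝ (Fin n)} (hg : DifferentiableAt ℝ g x)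
    (k : Fin n) (i : Fin 2) : pd (fun y => g y k) i x = pd g i x k := by
  have h : HasFDerivAt (fun y => g y k) _ x :=
    (EuclideanSpace.proj k : EuclideanSpace ℝ (Fin n) →L[ℝ] ℝ).hasFDerivAt.comp x hg.hasFDerivAt
  unfold pd
  rw [h.fderiv]
  simp

theorem rc_symm {g : E2 → F} (hg : ContDiffAt ℝ ∞ g x) : pd (pd g 1) 0 x = pd (pd g 0) 1 x := by
  have h1 : DifferentiableAt ℝ (fderiv ℝ g) x := rc_diff (hg.fderiv_right (m := ∞) (by simp))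
  have e : ∀ i j, pd (pd g i) j x = fderiv ℝ (fderiv ℝ g) x (EuclideanSpace.single j 1)
      (EuclideanSpace.single i 1) := by
    intro i j
    unfold pd
    rw [fderiv_clm_apply h1 (differentiableAt_const _)]
    simp
  rw [e, e]
  exact ((hg.of_le (m := 2) (WithTop.coe_le_coe.2 le_top)).isSymmSndFDerivAt (by simp)).eq _ _

theorem rc_tr {g g' : E2 → F} {τ : E2 → E2} (hg : DifferentiableAt ℝ g (τ x))
    (hτ : DifferentiableAt ℝ τ x) (e : g' =ᶠ[𝓝 x] g ∘ τ) (i : Fin 2) :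
    pd g' i x = pd τ i x 0 • pd g 0 (τ x) + pd τ i x 1 • pd g 1 (τ x) := by
  rw [rc_congr e]
  have hw : ∀ w : E2, w = w 0 • EuclideanSpace.single 0 1 + w 1 • EuclideanSpace.single 1 1 := by
    intro w; ext k; fin_cases k <;> simp
  unfold pd
  rw [fderiv_comp x hg hτ, ContinuousLinearMap.comp_apply, ← map_smul, ← map_smul, ← map_add,
    ← hw]

theorem rc_tr2 {g g' : E2 → F} {τ : E2 → E2} (hg : ContDiffAt ℝ ∞ g (τ x))
    (hτ : ContDiffAt ℝ ∞ τ x) (e : g' =ᶠ[𝓝 x] g ∘ τ) (i j : Fin 2) :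
    pd (pd g' i) j x =
      pd τ i x 0 • (pd τ j x 0 • pd (pd g 0) 0 (τ x) + pd τ j x 1 • pd (pd g 0) 1 (τ x)) +
      pd (pd τ i) j x 0 • pd g 0 (τ x) +
      (pd τ i x 1 • (pd τ j x 0 • pd (pd g 0) 1 (τ x) + pd τ j x 1 • pd (pd g 1) 1 (τ x)) +
      pd (pd τ i) j x 1 • pd g 1 (τ x)) := by
  have e1 : pd g' i =ᶠ[𝓝 x] fun y => pd τ i y 0 • pd g 0 (τ y) + pd τ i y 1 • pd g 1 (τ y) := by
    filter_upwards [e.eventually_nhds, rc_evdiff hτ, hτ.continuousAt.eventually (rc_evdiff hg)]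
      with y h1 h2 h3
    exact rc_tr h3 h2 h1 i
  have d1 : ∀ k, DifferentiableAt ℝ (fun y => pd τ i y k) x := fun k =>
    (EuclideanSpace.proj k : E2 →L[ℝ] ℝ).differentiableAt.comp x (rc_diff (cd_pd hτ i))
  have d2 : ∀ k, DifferentiableAt ℝ (fun y => pd g k (τ y)) x := fun k =>
    (rc_diff (cd_pd hg k)).comp x (rc_diff hτ)
  have e2 : ∀ k, pd (fun y => pd g k (τ y)) j x =
      pd τ j x 0 • pd (pd g k) 0 (τ x) + pd τ j x 1 • pd (pd g k) 1 (τ x) := fun k =>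
    rc_tr (rc_diff (cd_pd hg k)) (rc_diff hτ) (Filter.EventuallyEq.refl _ _) j
  rw [rc_congr e1, rc_add ((d1 0).fun_smul (d2 0)) ((d1 1).fun_smul (d2 1)),
    rc_smul (d1 0) (d2 0),
    rc_smul (d1 1) (d2 1), e2, e2, rc_proj (rc_diff (cd_pd hτ i)),
    rc_proj (rc_diff (cd_pd hτ i)), rc_symm hg]

end

/-- metric coefficients of a map of the plane -/
def gm (φ : E2 → E3) (i j : Fin 2) (x : E2) : ℝ := ⟪pd φ i x, pd φ j x⟫

def dn (φ : E2 → E3) (x : E2) : ℝ := √(gm φ 0 0 x * gm φ 1 1 x - gm φ 0 1 x ^ 2)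

def lapC (φ : E2 → E3) (v : E2 → ℝ) (x : E2) : ℝ :=
  (pd (fun y => (gm φ 1 1 y * pd v 0 y - gm φ 0 1 y * pd v 1 y) / dn φ y) 0 x +
    pd (fun y => (gm φ 0 0 y * pd v 1 y - gm φ 0 1 y * pd v 0 y) / dn φ y) 1 x) / dn φ x

/-- trace of the Hessian of `v - ⟨φ, T⟩` against the cofactors of the metric -/
def qq (φ : E2 → E3) (v : E2 → ℝ) (T : E3) (x : E2) : ℝ :=
  (pd (pd v 0) 0 x - ⟪pd (pd φ 0) 0 x, T⟫) * gm φ 1 1 x -
    2 * (pd (pd v 0) 1 x - ⟪pd (pd φ 0) 1 x, T⟫) * gm φ 0 1 x +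
    (pd (pd v 1) 1 x - ⟪pd (pd φ 1) 1 x, T⟫) * gm φ 0 0 x

/-- minimality at a point -/
def MinAt (φ : E2 → E3) (x : E2) : Prop := ∀ N : E3, (∀ i, ⟪pd φ i x, N⟫ = 0) →
  ⟪pd (pd φ 0) 0 x, N⟫ * gm φ 1 1 x - 2 * ⟪pd (pd φ 0) 1 x, N⟫ * gm φ 0 1 x +
    ⟪pd (pd φ 1) 1 x, N⟫ * gm φ 0 0 x = 0

theorem dn_sq {φ : E2 → E3} {x : E2} (hd : 0 < dn φ x) :
    dn φ x ^ 2 = gm φ 0 0 x * gm φ 1 1 x - gm φ 0 1 x ^ 2 :=
  Real.sq_sqrt (Real.sqrt_pos.1 hd).le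

theorem lapC_eq {φ : E2 → E3} {v : E2 → ℝ} {x : E2} (hφ : ContDiffAt ℝ ∞ φ x)
    (hv : ContDiffAt ℝ ∞ v x) (hd : 0 < dn φ x) (hm : MinAt φ x) {T : E3}
    (hT : ∀ i, ⟪pd φ i x, T⟫ = pd v i x) : lapC φ v x = qq φ v T x / dn φ x ^ 2 := by
  have cg : ∀ i j, ContDiffAt ℝ ∞ (gm φ i j) x := fun i j => (cd_pd hφ i).inner ℝ (cd_pd hφ j)
  have dg : ∀ i j, DifferentiableAt ℝ (gm φ i j) x := fun i j => rc_diff (cg i j)
  have hD := Real.sqrt_pos.1 hd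
  have dD : DifferentiableAt ℝ (fun y => gm φ 0 0 y * gm φ 1 1 y - gm φ 0 1 y ^ 2) x :=
    ((dg 0 0).mul (dg 1 1)).sub ((dg 0 1).pow 2)
  have dd : DifferentiableAt ℝ (dn φ) x := dD.sqrt hD.ne'
  have di : DifferentiableAt ℝ (fun y => (dn φ y)⁻¹) x := dd.inv hd.ne'
  have dv : ∀ i, DifferentiableAt ℝ (pd v i) x := fun i => rc_diff (cd_pd hv i)
  have eg : ∀ i j k, pd (gm φ i j) k x =
      ⟪pd φ i x, pd (pd φ j) k x⟫ + ⟪pd (pd φ i) k x, pd φ j x⟫ := fun i j k =>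
    rc_inner (rc_diff (cd_pd hφ i)) (rc_diff (cd_pd hφ j)) k
  have ei : ∀ k, pd (fun y => (dn φ y)⁻¹) k x = -(dn φ x ^ 2)⁻¹ * (1 / (2 * dn φ x) *
      (gm φ 0 0 x * pd (gm φ 1 1) k x + pd (gm φ 0 0) k x * gm φ 1 1 x -
        2 * gm φ 0 1 x * pd (gm φ 0 1) k x)) := by
    intro k
    rw [rc_comp (hasDerivAt_inv hd.ne') dd]
    congr 1
    have := rc_comp (G := fun t => √t) (Real.hasDerivAt_sqrt hD.ne') dD k
    rw [rc_sub ((dg 0 0).fun_mul (dg 1 1)) ((dg 0 1).fun_pow 2), rc_mul (dg 0 0) (dg 1 1),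
      rc_comp (G := fun t => t ^ 2) (hasDerivAt_pow 2 _) (dg 0 1)] at this
    refine this.trans ?_
    unfold dn
    norm_num
  obtain ⟨d, hdd⟩ : ∃ d, d = dn φ x := ⟨_, rfl⟩
  obtain ⟨W0, hW0⟩ : ∃ W, W = pd (gm φ 1 1) 0 x * d⁻¹ + gm φ 1 1 x * pd (fun y => (dn φ y)⁻¹) 0 x -
    (pd (gm φ 0 1) 1 x * d⁻¹ + gm φ 0 1 x * pd (fun y => (dn φ y)⁻¹) 1 x) := ⟨_, rfl⟩
  obtain ⟨W1, hW1⟩ : ∃ W, W = pd (gm φ 0 0) 1 x * d⁻¹ + gm φ 0 0 x * pd (fun y => (dn φ y)⁻¹) 1 x -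
    (pd (gm φ 0 1) 0 x * d⁻¹ + gm φ 0 1 x * pd (fun y => (dn φ y)⁻¹) 0 x) := ⟨_, rfl⟩
  have e1 : lapC φ v x = ((pd (pd v 0) 0 x * gm φ 1 1 x - 2 * pd (pd v 0) 1 x * gm φ 0 1 x +
      pd (pd v 1) 1 x * gm φ 0 0 x) * d⁻¹ + W0 * pd v 0 x + W1 * pd v 1 x) / d := by
    unfold lapC
    simp only [div_eq_mul_inv]
    rw [rc_mul (((dg 1 1).fun_mul (dv 0)).fun_sub ((dg 0 1).fun_mul (dv 1))) di,
      rc_mul (((dg 0 0).fun_mul (dv 1)).fun_sub ((dg 0 1).fun_mul (dv 0))) di,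
      rc_sub ((dg 1 1).fun_mul (dv 0)) ((dg 0 1).fun_mul (dv 1)),
      rc_sub ((dg 0 0).fun_mul (dv 1)) ((dg 0 1).fun_mul (dv 0)), rc_mul (dg 1 1) (dv 0),
      rc_mul (dg 0 1) (dv 1), rc_mul (dg 0 0) (dv 1), rc_mul (dg 0 1) (dv 0), rc_symm hv,
      hW0, hW1, hdd]
    ring
  obtain ⟨Z, hZ⟩ : ∃ Z : E3, Z = d⁻¹ • (gm φ 1 1 x • pd (pd φ 0) 0 x -
    (2 * gm φ 0 1 x) • pd (pd φ 0) 1 x + gm φ 0 0 x • pd (pd φ 1) 1 x) + W0 • pd φ 0 x +
    W1 • pd φ 1 x := ⟨_, rfl⟩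
  have hZi : ∀ N, ⟪Z, N⟫ = d⁻¹ * (⟪pd (pd φ 0) 0 x, N⟫ * gm φ 1 1 x -
      2 * ⟪pd (pd φ 0) 1 x, N⟫ * gm φ 0 1 x + ⟪pd (pd φ 1) 1 x, N⟫ * gm φ 0 0 x) +
      W0 * ⟪pd φ 0 x, N⟫ + W1 * ⟪pd φ 1 x, N⟫ := by
    intro N
    rw [hZ]
    simp only [inner_add_left, inner_sub_left, real_inner_smul_left]
    ring
  have hsq := dn_sq hd
  rw [← hdd] at hd hsq ei
  have hZt : ∀ i, ⟪pd φ i x, Z⟫ = 0 := by
    intro i
    rw [real_inner_comm, hZi, hW0, hW1, ei, ei]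
    simp only [eg, rc_symm hφ]
    have c : ∀ i j k, ⟪pd φ k x, pd (pd φ i) j x⟫ = ⟪pd (pd φ i) j x, pd φ k x⟫ :=
      fun i j k => real_inner_comm _ _
    simp only [c]
    have g10 : ⟪pd φ 1 x, pd φ 0 x⟫ = gm φ 0 1 x := real_inner_comm _ _
    have g' : ∀ i j, ⟪pd φ i x, pd φ j x⟫ = gm φ i j x := fun i j => rfl
    have hd0 := hd.ne'
    obtain rfl | rfl : i = 0 ∨ i = 1 := by fin_cases i <;> simp
    · rw [g10, g' 0 0]
      field_simp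
      rw [hsq]
      ring
    · rw [g' 0 1, g' 1 1]
      field_simp
      rw [hsq]
      ring
  have hZ0 : Z = 0 := by
    have := hZi Z
    rw [hm Z hZt, hZt, hZt] at this
    exact inner_self_eq_zero.1 (this.trans (by ring))
  have := hZi T
  rw [hZ0, inner_zero_left, hT, hT] at this
  rw [e1, ← hdd]
  unfold qq
  field_simp
  field_simp at this
  linear_combination -this

theorem gm_tr {φ φ' : E2 → E3} {τ : E2 → E2} {x : E2} (hφ : ContDiffAt ℝ ∞ φ (τ x))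
    (hτ : ContDiffAt ℝ ∞ τ x) (e : φ' =ᶠ[𝓝 x] φ ∘ τ) (i j : Fin 2) :
    gm φ' i j x = pd τ i x 0 * pd τ j x 0 * gm φ 0 0 (τ x) +
      (pd τ i x 0 * pd τ j x 1 + pd τ i x 1 * pd τ j x 0) * gm φ 0 1 (τ x) +
      pd τ i x 1 * pd τ j x 1 * gm φ 1 1 (τ x) := by
  unfold gm
  rw [rc_tr (rc_diff hφ) (rc_diff hτ) e i, rc_tr (rc_diff hφ) (rc_diff hτ) e j]
  simp only [inner_add_left, inner_add_right, real_inner_smul_left, real_inner_smul_right]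
  rw [real_inner_comm (pd φ 0 (τ x)) (pd φ 1 (τ x))]
  ring

theorem qq_tr {φ φ' : E2 → E3} {v v' : E2 → ℝ} {τ : E2 → E2} {x : E2}
    (hφ : ContDiffAt ℝ ∞ φ (τ x)) (hv : ContDiffAt ℝ ∞ v (τ x)) (hτ : ContDiffAt ℝ ∞ τ x)
    (e : φ' =ᶠ[𝓝 x] φ ∘ τ) (e' : v' =ᶠ[𝓝 x] v ∘ τ) {T : E3}
    (hT : ∀ i, ⟪pd φ i (τ x), T⟫ = pd v i (τ x)) :
    qq φ' v' T x = (pd τ 0 x 0 * pd τ 1 x 1 - pd τ 0 x 1 * pd τ 1 x 0) ^ 2 * qq φ v T (τ x) := by
  unfold qq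
  simp only [gm_tr hφ hτ e, rc_tr2 hφ hτ e, rc_tr2 hv hτ e', inner_add_left,
    real_inner_smul_left, hT, smul_eq_mul]
  ring

theorem qq_zero (φ : E2 → E3) (N : E3) (x : E2) : qq φ (fun _ => 0) N x =
    -(⟪pd (pd φ 0) 0 x, N⟫ * gm φ 1 1 x - 2 * ⟪pd (pd φ 0) 1 x, N⟫ * gm φ 0 1 x +
      ⟪pd (pd φ 1) 1 x, N⟫ * gm φ 0 0 x) := by
  have h : ∀ i, pd (fun _ : E2 => (0 : ℝ)) i = fun _ => 0 := fun i => by
    funext y; simp [pd]
  unfold qq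
  simp only [h]
  ring

theorem dn_pos {φ : E2 → E3} {x : E2} (h : LinearIndependent ℝ fun i => pd φ i x) :
    0 < dn φ x := by
  refine Real.sqrt_pos.2 (lt_of_le_of_ne ?_ fun h0 => ?_)
  · have := real_inner_mul_inner_self_le (pd φ 0 x) (pd φ 1 x)
    unfold gm
    nlinarith
  · have h1 : gm φ 1 1 x • pd φ 0 x + (-gm φ 0 1 x) • pd φ 1 x = 0 := by
      refine (inner_self_eq_zero (𝕜 := ℝ)).1 ?_
      simp only [inner_add_left, inner_add_right, real_inner_smul_left, real_inner_smul_right]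
      rw [real_inner_comm (pd φ 0 x) (pd φ 1 x)]
      change _ * (_ * gm φ 0 0 x) + _ * (_ * gm φ 0 1 x) +
        (_ * (_ * gm φ 0 1 x) + _ * (_ * gm φ 1 1 x)) = 0
      linear_combination (-gm φ 1 1 x) * h0
    have h2 := Fintype.linearIndependent_iff.1 h ![gm φ 1 1 x, -gm φ 0 1 x]
      (by simpa [Fin.sum_univ_two] using h1) 0
    exact h.ne_zero 1 ((inner_self_eq_zero (𝕜 := ℝ)).1 h2)

section
variable {M : Type} [TopologicalSpace M] [ChartedSpace E2 M]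

theorem loc_ev {F : Type} {a a' : M → F} {p : M} (e : a =ᶠ[𝓝 p] a') :
    loc a p =ᶠ[𝓝 (ctr p)] loc a' p :=
  ((chartAt E2 p).tendsto_symm (mem_chart_source E2 p)).eventually e

theorem dens_pos {f : M → E3} (hf : IsMinimal f) (p : M) : 0 < dens f p (ctr p) :=
  dn_pos (hf.immersion p)

end

theorem rInv : RInv := by
  intro M _ _ _ f hf p q hq
  obtain ⟨τ, hτ⟩ : ∃ τ : E2 → E2, τ = chartAt E2 p ∘ (chartAt E2 q).symm := ⟨_, rfl⟩
  have hc : (chartAt E2 q).symm (ctr q) = q := (chartAt E2 q).left_inv (mem_chart_source E2 q)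
  have hx : τ (ctr q) = chartAt E2 p q := by rw [hτ, Function.comp_apply, hc]
  have ct : ContDiffAt ℝ ∞ τ (ctr q) := by
    have h1 : ContMDiffAt (𝓡 2) (𝓡 2) ∞ (chartAt E2 q).symm (ctr q) :=
      (contMDiffOn_chart_symm (I := 𝓡 2) (n := ∞) (x := q)).contMDiffAt
        ((chartAt E2 q).open_target.mem_nhds (ctr_mem q))
    have h2 : ContMDiffAt (𝓡 2) (𝓡 2) ∞ (chartAt E2 p) ((chartAt E2 q).symm (ctr q)) := by
      rw [hc]
      exact (contMDiffOn_chart (I := 𝓡 2) (n := ∞) (x := p)).contMDiffAt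
        ((chartAt E2 p).open_source.mem_nhds hq)
    exact hτ ▸ (h2.comp _ h1).contDiffAt
  have ev : ∀ {F : Type} (a : M → F), loc a q =ᶠ[𝓝 (ctr q)] loc a p ∘ τ := by
    intro F a
    filter_upwards [((chartAt E2 q).tendsto_symm (mem_chart_source E2 q)).eventually
      ((chartAt E2 p).open_source.mem_nhds hq)] with y hy
    simp only [hτ, loc, Function.comp_apply]
    rw [(chartAt E2 p).left_inv hy]
  have hm : τ (ctr q) ∈ (chartAt E2 p).target := hx ▸ (chartAt E2 p).map_source hq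
  rw [← hx]
  have cφ := cd_loc hf.smooth p hm
  have eg := gm_tr cφ ct (ev f)
  obtain ⟨J, hJ⟩ : ∃ J, J = pd τ 0 (ctr q) 0 * pd τ 1 (ctr q) 1 -
    pd τ 0 (ctr q) 1 * pd τ 1 (ctr q) 0 := ⟨_, rfl⟩
  have hd' : 0 < dn (loc f q) (ctr q) := dens_pos hf q
  have hD' := Real.sqrt_pos.1 hd'
  have hD : gm (loc f q) 0 0 (ctr q) * gm (loc f q) 1 1 (ctr q) - gm (loc f q) 0 1 (ctr q) ^ 2 =
      J ^ 2 * (gm (loc f p) 0 0 (τ (ctr q)) * gm (loc f p) 1 1 (τ (ctr q)) -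
        gm (loc f p) 0 1 (τ (ctr q)) ^ 2) := by
    rw [eg, eg, eg, hJ]; ring
  rw [hD] at hD'
  have hJ0 : J ≠ 0 := by rintro rfl; simp at hD'
  have hd : 0 < dn (loc f p) (τ (ctr q)) :=
    Real.sqrt_pos.2 ((mul_pos_iff_of_pos_left (by positivity)).1 hD')
  have hsq : dn (loc f q) (ctr q) ^ 2 = J ^ 2 * dn (loc f p) (τ (ctr q)) ^ 2 := by
    rw [dn_sq hd', dn_sq hd, hD]
  have hT : ∀ {v v' : E2 → ℝ} {T : E3}, ContDiffAt ℝ ∞ v (τ (ctr q)) →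
      v' =ᶠ[𝓝 (ctr q)] v ∘ τ → (∀ i, ⟪pd (loc f p) i (τ (ctr q)), T⟫ = pd v i (τ (ctr q))) →
      ∀ i, ⟪pd (loc f q) i (ctr q), T⟫ = pd v' i (ctr q) := by
    intro v v' T hv e h i
    rw [rc_tr (rc_diff cφ) (rc_diff ct) (ev f), rc_tr (rc_diff hv) (rc_diff ct) e]
    simp only [inner_add_left, real_inner_smul_left, h, smul_eq_mul]
  have hmin : MinAt (loc f p) (τ (ctr q)) := by
    intro N hN
    have h0 : ∀ i x, pd (fun _ : E2 => (0 : ℝ)) i x = 0 := fun i x => by simp [pd]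
    have h1 : ∀ i, ⟪pd (loc f p) i (τ (ctr q)), N⟫ = pd (fun _ => (0 : ℝ)) i (τ (ctr q)) :=
      fun i => by rw [hN, h0]
    have h2 := qq_tr (v' := fun _ => 0) cφ contDiffAt_const ct (ev f)
      (Filter.EventuallyEq.refl _ _) h1
    have h3 : MinAt (loc f q) (ctr q) := hf.mean q
    rw [qq_zero, qq_zero, h3 N fun i => (hT (v' := fun _ => 0) contDiffAt_const
      (Filter.EventuallyEq.refl _ _) h1 i).trans (h0 _ _), ← hJ, neg_zero, eq_comm,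
      mul_eq_zero] at h2
    exact neg_eq_zero.1 (h2.resolve_left (pow_ne_zero 2 hJ0))
  refine ⟨hd, fun a b ha hb => ?_, fun b hb => ?_⟩
  · change _ / dn (loc f p) (τ (ctr q)) ^ 2 = (gm (loc f q) 1 1 (ctr q) * _ -
      gm (loc f q) 0 1 (ctr q) * _ + gm (loc f q) 0 0 (ctr q) * _) / dn (loc f q) (ctr q) ^ 2
    have ea := rc_tr (rc_diff (cd_loc ha p hm)) (rc_diff ct) (ev a)
    have eb := rc_tr (rc_diff (cd_loc hb p hm)) (rc_diff ct) (ev b)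
    rw [hsq, ← mul_div_mul_left _ _ (pow_ne_zero 2 hJ0)]
    congr 1
    simp only [eg, ea, eb, smul_eq_mul, hJ]
    change _ * (gm (loc f p) 1 1 (τ (ctr q)) * _ - gm (loc f p) 0 1 (τ (ctr q)) * _ +
      gm (loc f p) 0 0 (τ (ctr q)) * _) = _
    ring
  · have cv := cd_loc hb p hm
    obtain ⟨T, hT0⟩ : ∃ T : E3, ∀ i, ⟪pd (loc f p) i (τ (ctr q)), T⟫ =
        pd (loc b p) i (τ (ctr q)) := by
      obtain ⟨y, hy⟩ : ∃ y, y = τ (ctr q) := ⟨_, rfl⟩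
      rw [← hy] at hd ⊢
      have hs := dn_sq hd
      have hd0 := hd.ne'
      refine ⟨((gm (loc f p) 1 1 y * pd (loc b p) 0 y - gm (loc f p) 0 1 y * pd (loc b p) 1 y) /
        dn (loc f p) y ^ 2) • pd (loc f p) 0 y + ((gm (loc f p) 0 0 y * pd (loc b p) 1 y -
        gm (loc f p) 0 1 y * pd (loc b p) 0 y) / dn (loc f p) y ^ 2) • pd (loc f p) 1 y,
        fun i => ?_⟩
      have g10 : ⟪pd (loc f p) 1 y, pd (loc f p) 0 y⟫ = gm (loc f p) 0 1 y := real_inner_comm _ _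
      have g' : ∀ i j, ⟪pd (loc f p) i y, pd (loc f p) j y⟫ = gm (loc f p) i j y :=
        fun i j => rfl
      rw [inner_add_right, real_inner_smul_right, real_inner_smul_right]
      obtain rfl | rfl : i = 0 ∨ i = 1 := by fin_cases i <;> simp
      · rw [g', g']
        field_simp
        rw [hs]
        ring
      · rw [g10, g']
        field_simp
        rw [hs]
        ring
    change lapC (loc f p) (loc b p) (τ (ctr q)) = lapC (loc f q) (loc b q) (ctr q)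
    rw [lapC_eq cφ cv hd hmin hT0, lapC_eq (cd_loc hf.smooth q (ctr_mem q))
      (cd_loc hb q (ctr_mem q)) hd' (hf.mean q) (hT cv (ev b) hT0),
      qq_tr cφ cv ct (ev f) (ev b) hT0, hsq, ← hJ, mul_div_mul_left _ _ (pow_ne_zero 2 hJ0)]

end Pool.Agent.MP_943ae2_gt
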