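import Pool.Agent.MP_943ae2_gt.Defs

/-! Definition used in the statement of the recurrence criterion: the area measure of an immersed
surface. -/

open Set MeasureTheory

noncomputable section

namespace Pool.Agent.MP_943ae2_gt

variable {M : Type} [TopologicalSpace M] [ChartedSpace E2 M] [MeasurableSpace M]

/-- `μ` is the area measure of the metric induced by `f`: in every chart it has density
`√(det g)` with respect to Lebesgue measure. -/
def IsArea (f : M → E3) (μ : Measure M) : Prop :=
  ∀ (p : M) (S : Set M), MeasurableSet S → S ⊆ (chartAt E2 p).source →
    μ S = ∫⁻ x in chartAt E2 p '' S, ENNReal.ofReal (dens f p x)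

end Pool.Agent.MP_943ae2_gt
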