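import Pool.Agent.MP_943ae2_gt.Rc.Stm

open scoped Manifold ContDiff RealInnerProductSpace Topology
open Set MeasureTheory

noncomputable section

namespace Pool.Agent.MP_943ae2_gt

theorem ineq_RcExh {A q s ν : ℝ} (hA : 0 < A) (hq : 0 ≤ q) (h0 : 0 ≤ ν) (hs : s ≤ q * ν) :
    (1 / (A + q) + 2 * A / (A + q) ^ 2) * (2 * (2 - ν)) +
      (-1 / (A + q) ^ 2 - 4 * A / (A + q) ^ 3) * (4 * (q - s)) ≤
      4 * A * (3 * A - q) / (A + q) ^ 3 + 8 * ν / (A + q) := by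
  have hm : 0 < A + q := by positivity
  have h1 := sub_nonneg.2 hs
  refine sub_nonneg.1 (le_of_le_of_eq (b := (4 * ν * (A * (A + q) + (A - q) ^ 2) +
    2 * ν * ((A + q) ^ 2 + 2 * A * (A + q)) + 4 * (q * ν - s) * (A + q + 4 * A)) / (A + q) ^ 3)
    (by positivity) ?_)
  field_simp
  ring

/-- the radial part -/
def G_RcExh (k A t : ℝ) : ℝ := k * (Real.log (A + t) - 2 * A / (A + t) + 2)

/-- the vertical part -/
def g_RcExh (k a σ z : ℝ) : ℝ :=
  σ * z - k * (8 / a * (z * Real.arctan (z / a)) - 4 * Real.log (a ^ 2 + z ^ 2))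

theorem dG_RcExh (k : ℝ) {A t : ℝ} (h : A + t ≠ 0) :
    HasDerivAt (G_RcExh k A) (k * (1 / (A + t) + 2 * A / (A + t) ^ 2)) t ∧
    HasDerivAt (fun t => k * (1 / (A + t) + 2 * A / (A + t) ^ 2))
      (k * (-1 / (A + t) ^ 2 - 4 * A / (A + t) ^ 3)) t := by
  have h1 : HasDerivAt (fun t => A + t) 1 t := (hasDerivAt_id t).const_add A
  constructor
  · refine ((((h1.log h).sub ((hasDerivAt_const t (2 * A)).div h1 h)).add_const 2).const_mul
      k).congr_deriv ?_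
    field_simp
    ring
  · refine ((((hasDerivAt_const t 1).div h1 h).add ((hasDerivAt_const t (2 * A)).div (h1.pow 2)
      (pow_ne_zero 2 h))).const_mul k).congr_deriv ?_
    simp only [Pi.pow_apply]
    field_simp
    ring

theorem dg_RcExh (k σ : ℝ) {a : ℝ} (h : 0 < a) (z : ℝ) :
    HasDerivAt (g_RcExh k a σ) (σ - k * (8 / a * Real.arctan (z / a))) z ∧
    HasDerivAt (fun z => σ - k * (8 / a * Real.arctan (z / a)))
      (-(k * (8 / (a ^ 2 + z ^ 2)))) z := by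
  have h1 := ((hasDerivAt_id z).div_const a).arctan
  have h2 : a ^ 2 + z ^ 2 ≠ 0 := by positivity
  constructor
  · refine (((hasDerivAt_id z).const_mul σ).sub (((((hasDerivAt_id z).mul h1).const_mul (8 / a)).sub
      (((((hasDerivAt_id z).pow 2).const_add (a ^ 2)).log h2).const_mul 4)).const_mul
      k)).congr_deriv ?_
    simp only [Pi.pow_apply, id]
    field_simp
    ring
  · refine (((h1.const_mul (8 / a)).const_mul k).const_sub σ).congr_deriv ?_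
    simp only [id]
    field_simp

theorem low_RcExh {k a q : ℝ} (hk : 0 < k) (ha : a = 16 * k) (h1 : 1 ≤ a ^ 2) (hq : 0 ≤ q)
    (σ z : ℝ) : k * Real.log (a ^ 2 + q) + σ * z - |z| ≤
      G_RcExh k (a ^ 2) q + g_RcExh k a σ z := by
  have e1 : 2 * a ^ 2 / (a ^ 2 + q) ≤ 2 := by
    rw [div_le_iff₀ (by positivity)]
    linarith
  have e2 := Real.log_nonneg (show 1 ≤ a ^ 2 + z ^ 2 by nlinarith [sq_nonneg z])
  have e3 : z * Real.arctan (z / a) ≤ |z| * 2 := by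
    refine (le_abs_self _).trans ?_
    rw [abs_mul]
    refine mul_le_mul_of_nonneg_left (abs_le.2 ⟨?_, ?_⟩) (abs_nonneg z)
    · linarith [Real.neg_pi_div_two_lt_arctan (z / a), Real.pi_le_four]
    · linarith [Real.arctan_lt_pi_div_two (z / a), Real.pi_le_four]
  have e4 : k * (8 / a * (z * Real.arctan (z / a))) = z * Real.arctan (z / a) / 2 := by
    rw [ha]
    field_simp
    ring
  rw [G_RcExh, g_RcExh]
  nlinarith [mul_le_mul_of_nonneg_left e1 hk.le, mul_nonneg hk.le e2]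

section
variable {M : Type} [TopologicalSpace M] [ChartedSpace E2 M] {f : M → E3}

theorem sm_RcExh (hf : IsMinimal f) {Φ : E3 → ℝ} (h : ContDiff ℝ ∞ Φ) : Sm fun p => Φ (f p) :=
  h.comp_contMDiff hf.smooth

theorem smG_RcExh (hf : IsMinimal f) (k : ℝ) {A : ℝ} (hA : 0 < A) :
    Sm fun p => G_RcExh k A (f p 0 ^ 2 + f p 1 ^ 2) := by
  refine sm_RcExh hf (Φ := fun y => G_RcExh k A (y 0 ^ 2 + y 1 ^ 2)) ?_
  have h : ∀ y : E3, A + (y 0 ^ 2 + y 1 ^ 2) ≠ 0 := fun y => by positivity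
  have h1 : ContDiff ℝ ∞ fun y : E3 => A + (y 0 ^ 2 + y 1 ^ 2) := by fun_prop
  exact contDiff_const.mul (((h1.log h).sub (contDiff_const.div h1 h)).add contDiff_const)

theorem smg_RcExh (hf : IsMinimal f) (k σ : ℝ) {a : ℝ} (ha : 0 < a) :
    Sm fun p => g_RcExh k a σ (f p 2) := by
  refine sm_RcExh hf (Φ := fun y => g_RcExh k a σ (y 2)) ?_
  have h0 : ContDiff ℝ ∞ fun y : E3 => y 2 := by fun_prop
  have h1 : ContDiff ℝ ∞ fun y : E3 => a ^ 2 + y 2 ^ 2 := by fun_prop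
  exact (contDiff_const.mul h0).sub (contDiff_const.mul ((contDiff_const.mul
    (h0.mul (h0.div_const a).arctan)).sub (contDiff_const.mul (h1.log fun y => by positivity))))

variable [IsManifold (𝓡 2) ∞ M]

theorem lap_RcExh (hG : RGam) (hL : RLap) (hf : IsMinimal f) {k a : ℝ} (hk : 0 ≤ k) (ha : 0 < a)
    (σ : ℝ) (p : M) : ∃ ν : ℝ, 0 ≤ ν ∧ ν ≤ 1 ∧
      lapBel f (fun x => G_RcExh k (a ^ 2) (f x 0 ^ 2 + f x 1 ^ 2) + g_RcExh k a σ (f x 2)) p ≤
      k * (4 * a ^ 2 * (3 * a ^ 2 - (f p 0 ^ 2 + f p 1 ^ 2)) / (a ^ 2 + (f p 0 ^ 2 + f p 1 ^ 2)) ^ 3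
        + 8 * ν / (a ^ 2 + (f p 0 ^ 2 + f p 1 ^ 2)) - 8 * ν / (a ^ 2 + f p 2 ^ 2)) := by
  obtain ⟨g1, -, -, g4, -, g6, -, n, n1, n2⟩ := hG M f hf p
  obtain ⟨-, l2, l3, l4⟩ := hL M f hf p
  have s1 : ∀ i, Sm fun x => f x i := fun i => sm_RcExh hf (Φ := fun y => y i) (by fun_prop)
  have s2 : ∀ i, Sm fun x => f x i ^ 2 := fun i =>
    sm_RcExh hf (Φ := fun y => y i ^ 2) (by fun_prop)
  have d : ∀ t : ℝ, HasDerivAt (fun t : ℝ => t ^ 2) (2 * t) t := fun t => by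
    simpa using hasDerivAt_pow 2 t
  have q1 : ∀ i, lapBel f (fun x => f x i ^ 2) p = 2 * (1 - n i * n i) := fun i => by
    rw [l3 _ (fun t => t ^ 2) (fun t => 2 * t) 2 (s1 i) (.of_forall d)
      (by simpa using (hasDerivAt_id (f p i)).const_mul 2), l4, n2, if_pos rfl]
    ring
  have q2 : ∀ b, Gam f (fun x => f x 0 ^ 2 + f x 1 ^ 2) b p =
      2 * f p 0 * Gam f b (fun x => f x 0) p + 2 * f p 1 * Gam f b (fun x => f x 1) p := fun b => by
    rw [g4 _ _ _ (s2 0) (s2 1), g6 _ b (fun t => t ^ 2) _ (s1 0) (d _),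
      g6 _ b (fun t => t ^ 2) _ (s1 1) (d _), g1 b, g1 b]
  have hA : 0 < a ^ 2 := by positivity
  have hm : 0 < a ^ 2 + (f p 0 ^ 2 + f p 1 ^ 2) := by positivity
  refine ⟨n 0 ^ 2 + n 1 ^ 2, by positivity, by nlinarith [sq_nonneg (n 2)], ?_⟩
  rw [l2 _ _ (smG_RcExh hf k hA) (smg_RcExh hf k σ ha),
    l3 (fun x => f x 0 ^ 2 + f x 1 ^ 2) (G_RcExh k (a ^ 2)) _ _ ((s2 0).add (s2 1))
      (((continuous_const.add continuous_id).continuousAt.eventually_ne hm.ne').mono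
        fun t ht => (dG_RcExh k ht).1) (dG_RcExh k hm.ne').2,
    l3 (fun x => f x 2) (g_RcExh k a σ) _ _ (s1 2) (.of_forall fun t => (dg_RcExh k σ ha t).1)
      (dg_RcExh k σ ha _).2, l4, l2 _ _ (s2 0) (s2 1), q1, q1, q2, q2, q2, n2, n2, n2, n2, n2]
  have h := mul_le_mul_of_nonneg_left (ineq_RcExh hA (q := f p 0 ^ 2 + f p 1 ^ 2)
    (s := (f p 0 * n 0 + f p 1 * n 1) ^ 2) (ν := n 0 ^ 2 + n 1 ^ 2) (by positivity) (by positivity)
    (by nlinarith [sq_nonneg (f p 0 * n 1 - f p 1 * n 0)])) hk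
  simp only [if_true, Fin.isValue, zero_ne_one, one_ne_zero, if_false, id]
  linear_combination h + k * (8 / (a ^ 2 + f p 2 ^ 2)) * n1

end

theorem rExh (hG : RGam) (hL : RLap) : RExh := by
  intro M _ _ _ f hf hp U V C hU hV hd hc h1 h2
  classical
  obtain ⟨k, hk⟩ : ∃ k, k = 4 * |C| + 1 := ⟨_, rfl⟩
  obtain ⟨a, ha⟩ : ∃ a, a = 16 * k := ⟨_, rfl⟩
  have k1 : 1 ≤ k := by linarith [abs_nonneg C]
  have a0 : 0 < a := by linarith
  have a2 : 2 ≤ a ^ 2 := by nlinarith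
  have sw : Sm fun p => f p 0 ^ 2 + f p 1 ^ 2 + f p 2 ^ 2 :=
    sm_RcExh hf (Φ := fun y => y 0 ^ 2 + y 1 ^ 2 + y 2 ^ 2) (by fun_prop)
  have cp : ∀ r : ℝ, IsCompact {p | f p 0 ^ 2 + f p 1 ^ 2 + f p 2 ^ 2 ≤ r} := fun r =>
    (hp _ (isCompact_closedBall 0 √r)).of_isClosed_subset
      (isClosed_le sw.continuous continuous_const) fun p h => by
        rw [mem_preimage, mem_closedBall_zero_iff]
        refine Real.le_sqrt_of_sq_le ?_
        rwa [EuclideanSpace.real_norm_sq_eq, Fin.sum_univ_three]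
  obtain ⟨R0, hR0⟩ := hc.bddAbove_image sw.continuous.continuousOn
  obtain ⟨R, hR, r1⟩ : ∃ R, 6 * a ^ 2 ≤ R ∧
      ∀ p, R ≤ f p 0 ^ 2 + f p 1 ^ 2 + f p 2 ^ 2 → p ∈ U ∪ V :=
    ⟨max (6 * a ^ 2) (R0 + 1), le_max_left _ _, fun p h => by
      by_contra h'
      linarith [hR0 (mem_image_of_mem _ h'), le_max_right (6 * a ^ 2) (R0 + 1)]⟩
  obtain ⟨ε, e1, e2⟩ : ∃ ε : M → ℝ, (∀ p ∈ U, ε p = 2) ∧ ∀ p ∈ V, ε p = -2 :=
    ⟨U.piecewise (fun _ => 2) fun _ => -2, fun p h => piecewise_eq_of_mem _ _ _ h,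
      fun p h => piecewise_eq_of_notMem _ _ _ (disjoint_right.1 hd h)⟩
  have e3 : ∀ p ∈ U ∪ V, ∀ᶠ x in 𝓝 p, ε x = ε p := fun p h => h.elim
    (fun h => (hU.eventually_mem h).mono fun x hx => (e1 x hx).trans (e1 p h).symm)
    fun h => (hV.eventually_mem h).mono fun x hx => (e2 x hx).trans (e2 p h).symm
  obtain ⟨S, hS⟩ : ∃ S : M → ℝ, S = fun p => G_RcExh k (a ^ 2) (f p 0 ^ 2 + f p 1 ^ 2) +
    g_RcExh k a 0 (f p 2) + ε p *
      (Real.smoothTransition (f p 0 ^ 2 + f p 1 ^ 2 + f p 2 ^ 2 - R) * f p 2) := ⟨_, rfl⟩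
  have sS : Sm S := by
    rw [hS]
    refine ((smG_RcExh hf k (by positivity)).add (smg_RcExh hf k 0 a0)).add fun p => ?_
    by_cases h : p ∈ U ∪ V
    · refine (sm_RcExh hf (Φ := fun y => ε p * (Real.smoothTransition
        (y 0 ^ 2 + y 1 ^ 2 + y 2 ^ 2 - R) * y 2)) (contDiff_const.mul
          ((Real.smoothTransition.contDiff.comp (by fun_prop)).mul (by fun_prop)))
        p).congr_of_eventuallyEq ((e3 p h).mono fun x hx => ?_)
      simp only [hx]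
    · refine (contMDiffAt_const (c := (0 : ℝ))).congr_of_eventuallyEq
        ((sw.continuous.continuousAt.eventually_lt continuousAt_const
          (lt_of_not_ge fun h' => h (r1 p h'))).mono fun x hx => ?_)
      simp only [Real.smoothTransition.zero_of_nonpos (sub_nonpos.2 hx.le), zero_mul, mul_zero]
  have far : ∀ p, R + 1 < f p 0 ^ 2 + f p 1 ^ 2 + f p 2 ^ 2 → S =ᶠ[𝓝 p] fun x =>
      G_RcExh k (a ^ 2) (f x 0 ^ 2 + f x 1 ^ 2) + g_RcExh k a (ε p) (f x 2) := fun p h =>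
    ((e3 p (r1 p (by linarith))).and (continuousAt_const.eventually_lt
      sw.continuous.continuousAt h)).mono fun x hx => by
        simp only [hS, hx.1, g_RcExh,
          Real.smoothTransition.one_of_one_le (le_sub_iff_add_le'.2 hx.2.le)]
        ring
  have low : ∀ p, R + 1 < f p 0 ^ 2 + f p 1 ^ 2 + f p 2 ^ 2 →
      0 ≤ Real.log (a ^ 2 + (f p 0 ^ 2 + f p 1 ^ 2)) ∧
      |f p 2| + Real.log (a ^ 2 + (f p 0 ^ 2 + f p 1 ^ 2)) ≤ S p := fun p h => by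
    have q0 : 0 ≤ f p 0 ^ 2 + f p 1 ^ 2 := by positivity
    have b1 := (low_RcExh (by linarith) ha (by linarith) q0 (ε p) (f p 2)).trans_eq
      (far p h).self_of_nhds.symm
    have b2 := Real.log_nonneg (show 1 ≤ 2 + f p 0 ^ 2 + f p 1 ^ 2 by linarith)
    have b3 := Real.log_le_log (by linarith)
      (show 2 + f p 0 ^ 2 + f p 1 ^ 2 ≤ a ^ 2 + (f p 0 ^ 2 + f p 1 ^ 2) by linarith)
    have b4 := mul_le_mul (le_abs_self C) b3 b2 (abs_nonneg C)
    have b5 := mul_nonneg (abs_nonneg C) (b2.trans b3)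
    rw [hk] at b1
    refine ⟨b2.trans b3, ?_⟩
    rcases r1 p (by linarith) with h' | h'
    · rw [e1 p h'] at b1
      rcases abs_cases (f p 2) with h3 | h3 <;> linarith [h1 p h', h3.1, h3.2]
    · rw [e2 p h'] at b1
      rcases abs_cases (f p 2) with h3 | h3 <;> linarith [h2 p h', h3.1, h3.2]
  refine ⟨S, _, 20 * k, sS, cp (R + 1), by linarith, fun t => ?_, fun p h => ?_⟩
  · refine ((cp (R + 1)).union (cp (Real.exp t + t ^ 2))).of_isClosed_subset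
      (isClosed_le sS.continuous continuous_const) fun p h => ?_
    refine or_iff_not_imp_left.2 fun h' => ?_
    obtain ⟨b1, b2⟩ := low p (lt_of_not_ge fun e => h' e)
    have b3 : |f p 2| ≤ t := by linarith [show S p ≤ t from h]
    have b4 := (Real.log_le_iff_le_exp (by positivity)).1
      (show Real.log (a ^ 2 + (f p 0 ^ 2 + f p 1 ^ 2)) ≤ t by
        linarith [show S p ≤ t from h, abs_nonneg (f p 2)])
    have b5 := pow_le_pow_left₀ (abs_nonneg _) b3 2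
    rw [sq_abs] at b5
    rw [mem_ofPred_eq]
    linarith
  · have h' : R + 1 < f p 0 ^ 2 + f p 1 ^ 2 + f p 2 ^ 2 := lt_of_not_ge fun e => h e
    obtain ⟨b1, b2⟩ := low p h'
    obtain ⟨ν, n0, n1, hν⟩ := lap_RcExh hG hL hf (k := k) (by linarith) a0 (ε p) p
    rw [← (hL M f hf p).1 _ _ (far p h')] at hν
    obtain ⟨q, hq⟩ : ∃ q, q = f p 0 ^ 2 + f p 1 ^ 2 := ⟨_, rfl⟩
    have q0 : 0 ≤ q := by rw [hq]; positivity
    rw [add_assoc 1, ← hq]
    rw [← hq] at h' hν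
    have m0 : 0 < a ^ 2 + q := by positivity
    refine ⟨by linarith, hν.trans ?_, fun hz => hν.trans (mul_nonpos_of_nonneg_of_nonpos
      (by linarith) ?_)⟩
    · rw [mul_comm 20, mul_assoc k]
      refine mul_le_mul_of_nonneg_left ?_ (by linarith)
      have c1 : 4 * a ^ 2 * (3 * a ^ 2 - q) / (a ^ 2 + q) ^ 3 ≤ 12 * (1 / (a ^ 2 + q)) := by
        rw [div_le_iff₀ (by positivity), show 12 * (1 / (a ^ 2 + q)) * (a ^ 2 + q) ^ 3 =
          12 * (a ^ 2 + q) ^ 2 by field_simp]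
        nlinarith [mul_nonneg q0 (sq_nonneg a), sq_nonneg q]
      have c2 : 8 * ν / (a ^ 2 + q) ≤ 8 * (1 / (a ^ 2 + q)) := by
        rw [mul_div_assoc]
        gcongr
      have c3 : 0 ≤ 8 * ν / (a ^ 2 + f p 2 ^ 2) := by positivity
      have c4 := one_div_le_one_div_of_le (by positivity) (show 1 + q ≤ a ^ 2 + q by linarith)
      linarith
    · have c1 : 4 * a ^ 2 * (3 * a ^ 2 - q) / (a ^ 2 + q) ^ 3 ≤ 0 :=
        div_nonpos_of_nonpos_of_nonneg (mul_nonpos_of_nonneg_of_nonpos (by positivity)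
          (by linarith)) (by positivity)
      have c2 : 8 * ν / (a ^ 2 + q) ≤ 8 * ν / (a ^ 2 + f p 2 ^ 2) := by gcongr
      linarith

end Pool.Agent.MP_943ae2_gt
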