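import Pool.Agent.MP_943ae2_gt.Rc.Rules

open scoped Manifold ContDiff RealInnerProductSpace Topology
open Set MeasureTheory

noncomputable section

namespace Pool.Agent.MP_943ae2_gt

theorem ineq_RcX {A q s ν z n : ℝ} (hA : 0 < A) (hq : 0 ≤ q) (h0 : 0 ≤ ν) (hs : s ^ 2 ≤ q * ν)
    (hn : n ^ 2 ≤ 1) {b m : ℝ} (hb : b = A + z ^ 2) (hm : m = b + 10 * q) :
    (40 - 18 * ν) * (1 / m + 3 * b / m ^ 2) -
      (400 * (q - s ^ 2) - 80 * (z * n * s) + 4 * z ^ 2 * ν) * (1 / m ^ 2 + 6 * b / m ^ 3) -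
      6 * ν / m + 6 * (4 * z ^ 2 * ν - 40 * (z * n * s)) / m ^ 2 ≤
      40 * b * (5 * b - 10 * q) / m ^ 3 + 200 * ν / m := by
  have b0 : 0 < b := by rw [hb]; positivity
  have m0 : 0 < m := by rw [hm]; positivity
  have zb : z ^ 2 ≤ b := by linarith
  have bm : b ≤ m := by linarith
  have y1 : 8 * |z * n * s| ≤ b + 16 * (q * ν) := by
    have e : |z * n * s| = |z * n| * |s| := abs_mul _ _
    have h1 : |z * n| ^ 2 ≤ b := by
      rw [sq_abs, mul_pow]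
      exact (mul_le_of_le_one_right (sq_nonneg z) hn).trans zb
    have h2 : |s| ^ 2 ≤ q * ν := by rwa [sq_abs]
    nlinarith [sq_nonneg (|z * n| - 4 * |s|)]
  have y2 : 80 * (z * n * s) * (6 * b - 2 * m) ≤ 40 * m * (b + 16 * (q * ν)) := by
    have h1 : |6 * b - 2 * m| ≤ 4 * m := abs_le.2 ⟨by linarith, by linarith⟩
    calc 80 * (z * n * s) * (6 * b - 2 * m) ≤ |80 * (z * n * s) * (6 * b - 2 * m)| :=
          le_abs_self _
      _ = 10 * (8 * |z * n * s|) * |6 * b - 2 * m| := by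
          rw [abs_mul, abs_mul 80, abs_of_pos (by norm_num : (0 : ℝ) < 80)]; ring
      _ ≤ 10 * (b + 16 * (q * ν)) * (4 * m) := by gcongr
      _ = _ := by ring
  have y3 : 400 * s ^ 2 * (m + 6 * b) ≤ 400 * (q * ν) * (m + 6 * b) := by gcongr
  have y4 : 10 * q * m * ν ≤ m * m * ν := by gcongr; linarith
  have y5 : 40 * q * b * ν ≤ m * m * ν :=
    mul_le_mul_of_nonneg_right (by rw [hm]; nlinarith [sq_nonneg (b - 10 * q)]) h0
  have y6 : z ^ 2 * m * ν ≤ m * m * ν := by gcongr; linarith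
  have y7 : 0 ≤ z ^ 2 * b * ν := by positivity
  have y8 : 0 ≤ b * m * ν := by positivity
  have y9 : 0 ≤ m * m * ν := by positivity
  rw [← sub_nonneg]
  refine le_of_le_of_eq (b := (40 * b * (5 * b - 10 * q) + 200 * ν * m ^ 2 -
    ((40 - 18 * ν) * (m ^ 2 + 3 * b * m) -
      (400 * (q - s ^ 2) - 80 * (z * n * s) + 4 * z ^ 2 * ν) * (m + 6 * b) - 6 * ν * m ^ 2 +
      6 * (4 * z ^ 2 * ν - 40 * (z * n * s)) * m)) / m ^ 3) (div_nonneg ?_ (by positivity)) ?_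
  · have e : 40 * b * (5 * b - 10 * q) - 40 * (m ^ 2 + 3 * b * m) + 400 * q * (m + 6 * b) =
        40 * m * b := by rw [hm]; ring
    linarith
  · field_simp

theorem ineq2_RcX {A q s ν z n : ℝ} (hA : 0 < A) (hq : 0 ≤ q) (h0 : 0 ≤ ν) (hs : s ^ 2 ≤ q * ν)
    (hn : ν + n ^ 2 = 1) {b : ℝ} (hb : b = A + z ^ 2) :
    40 * b * (5 * b - 10 * q) / (b + 10 * q) ^ 3 - 400 * ν / b ≤
      225 * (4 * (A + (s + z * n) ^ 2) / (b + q) ^ 2) := by
  have b0 : 0 < b := by rw [hb]; positivity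
  have c0 : 0 ≤ 400 * ν / b := by positivity
  rcases le_total b (2 * q) with h | h
  · have c1 : 40 * b * (5 * b - 10 * q) / (b + 10 * q) ^ 3 ≤ 0 :=
      div_nonpos_of_nonpos_of_nonneg (mul_nonpos_of_nonneg_of_nonpos (by positivity)
        (by linarith)) (by positivity)
    have : 0 ≤ 225 * (4 * (A + (s + z * n) ^ 2) / (b + q) ^ 2) := by positivity
    linarith
  · have c1 : 40 * b * (5 * b - 10 * q) / (b + 10 * q) ^ 3 ≤ 200 * b ^ 2 / b ^ 3 := by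
      refine div_le_div₀ (by positivity) (by nlinarith [mul_nonneg b0.le hq]) (by positivity) ?_
      gcongr
      linarith
    have c2 : b ≤ 2 * (A + (s + z * n) ^ 2) + 2 * b * ν := by
      have e1 : z ^ 2 = z ^ 2 * ν + (z * n) ^ 2 := by linear_combination -z ^ 2 * hn
      have e2 : (z * n) ^ 2 ≤ 2 * (s + z * n) ^ 2 + 2 * s ^ 2 := by
        nlinarith [sq_nonneg (2 * s + z * n)]
      have e3 : z ^ 2 * ν ≤ b * ν := by gcongr; linarith
      have e4 : 2 * q * ν ≤ b * ν := by gcongr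
      linarith
    have c3 : 4 * (A + (s + z * n) ^ 2) / (3 / 2 * b) ^ 2 ≤
        4 * (A + (s + z * n) ^ 2) / (b + q) ^ 2 := by
      gcongr
      linarith
    have c4 : 200 * b ^ 2 / b ^ 3 - 400 * ν / b ≤
        225 * (4 * (A + (s + z * n) ^ 2) / (3 / 2 * b) ^ 2) := by
      rw [← sub_nonneg]
      refine le_of_le_of_eq (b := 200 * (2 * (A + (s + z * n) ^ 2) + 2 * b * ν - b) / b ^ 2)
        (div_nonneg (by linarith) (by positivity)) ?_
      field_simp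
      ring
    linarith

/-- the square of the distance to the origin -/
def wf {M : Type} (f : M → E3) (p : M) : ℝ := f p 0 ^ 2 + f p 1 ^ 2 + f p 2 ^ 2

/-- the main part -/
def P_RcX (k A : ℝ) (y : E3) : ℝ :=
  k * (Real.log (A + y 2 ^ 2 + 10 * (y 0 ^ 2 + y 1 ^ 2)) + 3) +
    (A + y 2 ^ 2) * (-3 * k * (A + y 2 ^ 2 + 10 * (y 0 ^ 2 + y 1 ^ 2))⁻¹)

/-- the vertical part -/
def g_RcX (k a σ z : ℝ) : ℝ :=
  σ * z - k * (8 / a * (z * Real.arctan (z / a)) - 4 * Real.log (a ^ 2 + z ^ 2))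

theorem dg_RcX (k σ : ℝ) {a : ℝ} (h : 0 < a) (z : ℝ) :
    HasDerivAt (g_RcX k a σ) (σ - k * (8 / a * Real.arctan (z / a))) z ∧
    HasDerivAt (fun z => σ - k * (8 / a * Real.arctan (z / a)))
      (-(k * (8 / (a ^ 2 + z ^ 2)))) z := by
  have h1 := ((hasDerivAt_id z).div_const a).arctan
  have h2 : a ^ 2 + z ^ 2 ≠ 0 := by positivity
  constructor
  · refine (((hasDerivAt_id z).const_mul σ).sub (((((hasDerivAt_id z).mul h1).const_mul (8 / a)).sub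
      (((((hasDerivAt_id z).pow 2).const_add (a ^ 2)).log h2).const_mul 4)).const_mul
      k)).congr_deriv ?_
    simp only [Pi.pow_apply, id]
    field_simp
    ring
  · refine (((h1.const_mul (8 / a)).const_mul k).const_sub σ).congr_deriv ?_
    simp only [id]
    field_simp

theorem low_RcX {k a : ℝ} (hk : 0 < k) (ha : a = 16 * (75 * k)) (h1 : 1 ≤ a ^ 2) (σ : ℝ)
    (y : E3) : k * Real.log (a ^ 2 + (y 0 ^ 2 + y 1 ^ 2)) + σ * y 2 - |y 2| ≤
      P_RcX k (a ^ 2) y + g_RcX (75 * k) a σ (y 2) := by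
  have q0 : 0 ≤ y 0 ^ 2 + y 1 ^ 2 := by positivity
  have e0 : Real.log (a ^ 2 + (y 0 ^ 2 + y 1 ^ 2)) ≤
      Real.log (a ^ 2 + y 2 ^ 2 + 10 * (y 0 ^ 2 + y 1 ^ 2)) :=
    Real.log_le_log (by positivity) (by nlinarith [sq_nonneg (y 2)])
  have e1 : (a ^ 2 + y 2 ^ 2) * (a ^ 2 + y 2 ^ 2 + 10 * (y 0 ^ 2 + y 1 ^ 2))⁻¹ ≤ 1 := by
    rw [← div_eq_mul_inv, div_le_one (by positivity)]
    linarith
  have e2 := Real.log_nonneg (show 1 ≤ a ^ 2 + y 2 ^ 2 by nlinarith [sq_nonneg (y 2)])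
  have e3 : y 2 * Real.arctan (y 2 / a) ≤ |y 2| * 2 := by
    refine (le_abs_self _).trans ?_
    rw [abs_mul]
    refine mul_le_mul_of_nonneg_left (abs_le.2 ⟨?_, ?_⟩) (abs_nonneg _)
    · linarith [Real.neg_pi_div_two_lt_arctan (y 2 / a), Real.pi_le_four]
    · linarith [Real.arctan_lt_pi_div_two (y 2 / a), Real.pi_le_four]
  have e4 : 75 * k * (8 / a * (y 2 * Real.arctan (y 2 / a))) =
      y 2 * Real.arctan (y 2 / a) / 2 := by
    rw [ha]
    field_simp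
    ring
  rw [P_RcX, g_RcX]
  nlinarith [mul_le_mul_of_nonneg_left e1 hk.le, mul_nonneg hk.le e2,
    mul_le_mul_of_nonneg_left e0 hk.le]

section
variable {M : Type} [TopologicalSpace M] [ChartedSpace E2 M] {f : M → E3}

theorem sadd_RcX {a b : M → ℝ} (ha : Sm a) (hb : Sm b) : Sm fun x => a x + b x := ha.add hb

theorem smul_RcX {a b : M → ℝ} (ha : Sm a) (hb : Sm b) : Sm fun x => a x * b x := ha.mul hb

theorem sm_RcX (hf : IsMinimal f) {Φ : E3 → ℝ} (h : ContDiff ℝ ∞ Φ) : Sm fun p => Φ (f p) :=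
  h.comp_contMDiff hf.smooth

theorem smP_RcX (hf : IsMinimal f) (k : ℝ) {A : ℝ} (hA : 0 < A) : Sm fun p => P_RcX k A (f p) := by
  refine sm_RcX hf (Φ := P_RcX k A) ?_
  have h : ∀ y : E3, A + y 2 ^ 2 + 10 * (y 0 ^ 2 + y 1 ^ 2) ≠ 0 := fun y => by positivity
  have h1 : ContDiff ℝ ∞ fun y : E3 => A + y 2 ^ 2 + 10 * (y 0 ^ 2 + y 1 ^ 2) := by fun_prop
  have h2 : ContDiff ℝ ∞ fun y : E3 => A + y 2 ^ 2 := by fun_prop
  exact (contDiff_const.mul ((h1.log h).add contDiff_const)).add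
    (h2.mul (contDiff_const.mul (h1.inv h)))

theorem smg_RcX (hf : IsMinimal f) (k σ : ℝ) {a : ℝ} (ha : 0 < a) :
    Sm fun p => g_RcX k a σ (f p 2) := by
  refine sm_RcX hf (Φ := fun y => g_RcX k a σ (y 2)) ?_
  have h0 : ContDiff ℝ ∞ fun y : E3 => y 2 := by fun_prop
  have h1 : ContDiff ℝ ∞ fun y : E3 => a ^ 2 + y 2 ^ 2 := by fun_prop
  exact (contDiff_const.mul h0).sub (contDiff_const.mul ((contDiff_const.mul
    (h0.mul (h0.div_const a).arctan)).sub (contDiff_const.mul (h1.log fun y => by positivity))))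

variable [IsManifold (𝓡 2) ∞ M]

theorem mul_RcX (hf : IsMinimal f) {a b : M → ℝ} (ha : Sm a) (hb : Sm b) (p : M) :
    lapBel f (fun x => a x * b x) p =
      a p * lapBel f b p + b p * lapBel f a p + 2 * Gam f a b p := by
  obtain ⟨g1, -, -, g4, -⟩ := rGam M f hf p
  obtain ⟨-, l2, l3, -⟩ := rLap M f hf p
  have sq : ∀ (c : ℝ) (v : M → ℝ), Sm v → lapBel f (fun x => c * v x ^ 2) p =
      c * (2 * v p) * lapBel f v p + c * 2 * Gam f v v p := fun c v hv =>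
    l3 v (fun t => c * t ^ 2) (fun t => c * (2 * t)) _ hv
      (.of_forall fun t => by simpa using (hasDerivAt_pow 2 t).const_mul c)
      (by simpa using ((hasDerivAt_id (v p)).const_mul 2).const_mul c)
  have ss : ∀ (c : ℝ) (v : M → ℝ), Sm v → Sm fun x => c * v x ^ 2 := fun c v hv =>
    contMDiff_const.mul (hv.pow 2)
  have e : (fun x => a x * b x) = fun x => 1 / 2 * (a x + b x) ^ 2 +
      (-1 / 2 * a x ^ 2 + -1 / 2 * b x ^ 2) := by funext x; ring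
  rw [e, l2 _ _ (ss _ _ (sadd_RcX ha hb)) (sadd_RcX (ss _ _ ha) (ss _ _ hb)),
    l2 _ _ (ss _ _ ha) (ss _ _ hb),
    sq _ _ (sadd_RcX ha hb), sq _ _ ha, sq _ _ hb, l2 _ _ ha hb, g4 _ _ _ ha hb,
    g1 a, g1 b, g4 _ _ _ ha hb, g4 _ _ _ ha hb, g1 b a]
  ring

theorem lap_RcX (hf : IsMinimal f) {k a : ℝ} (hk : 0 ≤ k) (ha : 0 < a) (σ : ℝ) (p : M) :
    Gam f (wf f) (wf f) p ≤ 4 * wf f p ∧ 0 ≤ lapBel f (fun x => Real.log (a ^ 2 + wf f x)) p ∧
    lapBel f (fun x => P_RcX k (a ^ 2) (f x) + g_RcX (75 * k) a σ (f x 2)) p ≤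
      225 * k * lapBel f (fun x => Real.log (a ^ 2 + wf f x)) p ∧
    (a ^ 2 + f p 2 ^ 2 ≤ 2 * (f p 0 ^ 2 + f p 1 ^ 2) →
      lapBel f (fun x => P_RcX k (a ^ 2) (f x) + g_RcX (75 * k) a σ (f x 2)) p ≤ 0) := by
  obtain ⟨g1, -, -, g4, -, g6, -, n, n1, n2⟩ := rGam M f hf p
  obtain ⟨-, l2, l3, l4⟩ := rLap M f hf p
  have s1 : ∀ i, Sm fun x => f x i := fun i => sm_RcX hf (Φ := fun y => y i) (by fun_prop)
  have d : ∀ c e t : ℝ, HasDerivAt (fun t : ℝ => e + c * t ^ 2) (c * (2 * t)) t := fun c e t => by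
    simpa using ((hasDerivAt_pow 2 t).const_mul c).const_add e
  have s2 : ∀ (c e : ℝ) i, Sm fun x => e + c * f x i ^ 2 := fun c e i =>
    sm_RcX hf (Φ := fun y => e + c * y i ^ 2) (by fun_prop)
  have q1 : ∀ (c e : ℝ) i, lapBel f (fun x => e + c * f x i ^ 2) p = c * 2 * (1 - n i * n i) :=
    fun c e i => by
      rw [l3 _ (fun t => e + c * t ^ 2) (fun t => c * (2 * t)) (c * 2) (s1 i) (.of_forall (d c e))
        (by simpa using ((hasDerivAt_id (f p i)).const_mul 2).const_mul c), l4, n2, if_pos rfl]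
      ring
  have q2 : ∀ (c e : ℝ) i b, Gam f (fun x => e + c * f x i ^ 2) b p =
      c * (2 * f p i) * Gam f b (fun x => f x i) p := fun c e i b => by
    rw [g6 _ b (fun t => e + c * t ^ 2) _ (s1 i) (d c e _), g1 b]
  have hA : 0 < a ^ 2 := by positivity
  obtain ⟨B, hB⟩ : ∃ B : M → ℝ, B = fun x => a ^ 2 + 1 * f x 2 ^ 2 := ⟨_, rfl⟩
  obtain ⟨W, hW⟩ : ∃ W : M → ℝ, W = fun x => (a ^ 2 + 1 * f x 2 ^ 2) +
    ((0 + 10 * f x 0 ^ 2) + (0 + 10 * f x 1 ^ 2)) := ⟨_, rfl⟩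
  have sB : Sm B := hB ▸ s2 _ _ _
  have sW : Sm W := hW ▸ (s2 _ _ _).add ((s2 _ _ _).add (s2 _ _ _))
  have W0 : ∀ x, 0 < W x := fun x => by rw [hW]; positivity
  have gW : ∀ b, Gam f W b p = 2 * f p 2 * Gam f b (fun x => f x 2) p +
      20 * f p 0 * Gam f b (fun x => f x 0) p + 20 * f p 1 * Gam f b (fun x => f x 1) p := by
    intro b
    rw [hW, g4 _ _ _ (s2 _ _ _) (sadd_RcX (s2 _ _ _) (s2 _ _ _)), g4 _ _ _ (s2 _ _ _) (s2 _ _ _),
      q2, q2, q2]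
    ring
  have gB : ∀ b, Gam f B b p = 2 * f p 2 * Gam f b (fun x => f x 2) p := by
    intro b
    rw [hB, q2]
    ring
  obtain ⟨ν, hν⟩ : ∃ ν, ν = n 0 ^ 2 + n 1 ^ 2 := ⟨_, rfl⟩
  obtain ⟨s, hs⟩ : ∃ s, s = f p 0 * n 0 + f p 1 * n 1 := ⟨_, rfl⟩
  have lW : lapBel f W p = 40 - 18 * ν := by
    rw [hW, l2 _ _ (s2 _ _ _) (sadd_RcX (s2 _ _ _) (s2 _ _ _)), l2 _ _ (s2 _ _ _) (s2 _ _ _),
      q1, q1, q1, hν]
    linear_combination -2 * n1
  have lB : lapBel f B p = 2 * ν := by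
    rw [hB, q1, hν]
    linear_combination -2 * n1
  have gWW : Gam f W W p = 400 * (f p 0 ^ 2 + f p 1 ^ 2 - s ^ 2) - 80 * (f p 2 * n 2 * s) +
      4 * f p 2 ^ 2 * ν := by
    rw [gW, gW, gW, gW]
    simp only [n2, hν, hs]
    simp
    linear_combination -4 * f p 2 ^ 2 * n1
  have gBW : Gam f W B p = 4 * f p 2 ^ 2 * ν - 40 * (f p 2 * n 2 * s) := by
    rw [gW, gB, gB, gB]
    simp only [n2, hν, hs]
    simp
    linear_combination -4 * f p 2 ^ 2 * n1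
  have hw : wf f = fun x => (0 + 1 * f x 2 ^ 2) + ((0 + 1 * f x 0 ^ 2) + (0 + 1 * f x 1 ^ 2)) := by
    funext x; unfold wf; ring
  have sw : Sm (wf f) := hw ▸ sadd_RcX (s2 _ _ _) (sadd_RcX (s2 _ _ _) (s2 _ _ _))
  have gw : ∀ b, Gam f (wf f) b p = 2 * f p 2 * Gam f b (fun x => f x 2) p +
      2 * f p 0 * Gam f b (fun x => f x 0) p + 2 * f p 1 * Gam f b (fun x => f x 1) p := by
    intro b
    rw [hw, g4 _ _ _ (s2 _ _ _) (sadd_RcX (s2 _ _ _) (s2 _ _ _)), g4 _ _ _ (s2 _ _ _) (s2 _ _ _),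
      q2, q2, q2]
    ring
  have lw : lapBel f (wf f) p = 4 := by
    rw [hw, l2 _ _ (s2 _ _ _) (sadd_RcX (s2 _ _ _) (s2 _ _ _)), l2 _ _ (s2 _ _ _) (s2 _ _ _),
      q1, q1, q1]
    linear_combination -2 * n1
  have gww : Gam f (wf f) (wf f) p = 4 * (wf f p - (s + f p 2 * n 2) ^ 2) := by
    rw [gw, gw, gw, gw]
    simp only [n2, hs, wf]
    simp
    ring
  have w0 : 0 < a ^ 2 + wf f p := by unfold wf; positivity
  have d0 : ∀ t : ℝ, HasDerivAt (fun t => a ^ 2 + t) 1 t := fun t => (hasDerivAt_id t).const_add _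
  have lD : lapBel f (fun x => Real.log (a ^ 2 + wf f x)) p =
      4 * (a ^ 2 + (s + f p 2 * n 2) ^ 2) / (a ^ 2 + wf f p) ^ 2 := by
    rw [l3 (wf f) (fun t => Real.log (a ^ 2 + t)) (fun t => 1 / (a ^ 2 + t)) _ sw
      (((continuous_const.add continuous_id).continuousAt.eventually_ne w0.ne').mono
        fun t ht => (d0 t).log ht) ((hasDerivAt_const _ 1).div (d0 _) w0.ne'), lw, gww]
    field_simp
    ring
  have e : (fun x => P_RcX k (a ^ 2) (f x)) =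
      fun x => k * (Real.log (W x) + 3) + B x * (-3 * k * (W x)⁻¹) := by
    funext x
    simp only [P_RcX, hW, hB]
    ring_nf
  have ev : ∀ᶠ t in 𝓝 (W p), t ≠ 0 := eventually_ne_nhds (W0 p).ne'
  have t1 : Sm fun x => k * (Real.log (W x) + 3) := contMDiff_const.mul
    (ContMDiff.add (fun x => (Real.contDiffAt_log.2 (W0 x).ne').comp_contMDiffAt (sW x))
      contMDiff_const)
  have t2 : Sm fun x => -3 * k * (W x)⁻¹ := contMDiff_const.mul (sW.inv₀ fun x => (W0 x).ne')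
  have d1 : ∀ t : ℝ, t ≠ 0 → HasDerivAt (fun t => -3 * k * t⁻¹) (-3 * k * -(t ^ 2)⁻¹) t :=
    fun t ht => (hasDerivAt_inv ht).const_mul _
  have d2 : HasDerivAt (fun t : ℝ => -3 * k * -(t ^ 2)⁻¹) (-3 * k * (2 / W p ^ 3)) (W p) := by
    refine (((hasDerivAt_pow 2 (W p)).inv (pow_ne_zero 2 (W0 p).ne')).neg.const_mul
      (-3 * k)).congr_deriv ?_
    have := (W0 p).ne'
    field_simp
    norm_num
    ring
  have ν0 : 0 ≤ ν := by rw [hν]; positivity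
  have hsq : s ^ 2 ≤ (f p 0 ^ 2 + f p 1 ^ 2) * ν := by
    rw [hs, hν]; nlinarith [sq_nonneg (f p 0 * n 1 - f p 1 * n 0)]
  suffices H : lapBel f (fun x => P_RcX k (a ^ 2) (f x) + g_RcX (75 * k) a σ (f x 2)) p ≤
      k * (40 * (a ^ 2 + f p 2 ^ 2) * (5 * (a ^ 2 + f p 2 ^ 2) - 10 * (f p 0 ^ 2 + f p 1 ^ 2)) /
        (a ^ 2 + f p 2 ^ 2 + 10 * (f p 0 ^ 2 + f p 1 ^ 2)) ^ 3 -
        400 * ν / (a ^ 2 + f p 2 ^ 2)) by
    refine ⟨by rw [gww]; nlinarith [sq_nonneg (s + f p 2 * n 2)], by rw [lD]; positivity,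
      H.trans ?_, fun hz => H.trans (mul_nonpos_of_nonneg_of_nonpos hk (sub_nonpos.2
        ((div_nonpos_of_nonpos_of_nonneg (mul_nonpos_of_nonneg_of_nonpos (by positivity)
          (by linarith)) (by positivity)).trans (by positivity))))⟩
    rw [lD, mul_comm 225, mul_assoc k, show a ^ 2 + wf f p =
      a ^ 2 + f p 2 ^ 2 + (f p 0 ^ 2 + f p 1 ^ 2) by unfold wf; ring]
    exact mul_le_mul_of_nonneg_left (ineq2_RcX hA (by positivity) ν0 hsq
      (by rw [hν]; exact n1) rfl) hk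
  rw [l2 _ _ (smP_RcX hf k hA) (smg_RcX hf _ σ ha), e, l2 _ _ t1 (smul_RcX sB t2),
    l3 W (fun t => k * (Real.log t + 3)) (fun t => k * t⁻¹) _ sW
      (ev.mono fun t ht => ((Real.hasDerivAt_log ht).add_const 3).const_mul k)
      ((hasDerivAt_inv (W0 p).ne').const_mul k), mul_RcX hf sB t2, g1 B,
    g6 W B (fun t => -3 * k * t⁻¹) _ sW (d1 _ (W0 p).ne'),
    l3 W (fun t => -3 * k * t⁻¹) _ _ sW (ev.mono d1) d2,
    l3 (fun x => f x 2) (g_RcX (75 * k) a σ) _ _ (s1 2)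
      (.of_forall fun t => (dg_RcX (75 * k) σ ha t).1) (dg_RcX (75 * k) σ ha _).2,
    l4, lW, lB, gWW, gBW, n2, if_pos rfl]
  have eB : B p = a ^ 2 + f p 2 ^ 2 := by rw [hB]; ring
  have eW : W p = B p + 10 * (f p 0 ^ 2 + f p 1 ^ 2) := by rw [hW, hB]; ring
  have h := mul_le_mul_of_nonneg_left (ineq_RcX hA (q := f p 0 ^ 2 + f p 1 ^ 2) (s := s) (ν := ν)
    (z := f p 2) (n := n 2) (by positivity) ν0 hsq
    (by nlinarith [sq_nonneg (n 0), sq_nonneg (n 1)]) eB eW) hk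
  have B0 : 0 < B p := by rw [eB]; positivity
  have h' : k * (200 * ν / W p) ≤ k * (200 * ν / B p) := by
    gcongr
    rw [eW]
    nlinarith [sq_nonneg (f p 0), sq_nonneg (f p 1)]
  rw [← eB, ← eW, show 1 - n 2 * n 2 = ν by rw [hν]; linear_combination -n1]
  have W1 := (W0 p).ne'
  have B1 := B0.ne'
  refine le_trans (le_of_eq ?_) (show k * ((40 - 18 * ν) * (1 / W p + 3 * B p / W p ^ 2) -
      (400 * (f p 0 ^ 2 + f p 1 ^ 2 - s ^ 2) - 80 * (f p 2 * n 2 * s) + 4 * f p 2 ^ 2 * ν) *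
        (1 / W p ^ 2 + 6 * B p / W p ^ 3) - 6 * ν / W p +
      6 * (4 * f p 2 ^ 2 * ν - 40 * (f p 2 * n 2 * s)) / W p ^ 2) - k * (200 * ν / B p) -
      k * (400 * ν / B p) ≤ _ by linarith)
  field_simp
  ring

end

theorem rc_exh {M : Type} [TopologicalSpace M] [ChartedSpace E2 M] [IsManifold (𝓡 2) ∞ M]
    {f : M → E3} (hf : IsMinimal f) (hp : ∀ K, IsCompact K → IsCompact (f ⁻¹' K))
    {U V : Set M} {C : ℝ} (hU : IsOpen U) (hV : IsOpen V) (hd : Disjoint U V)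
    (hc : IsCompact (U ∪ V)ᶜ)
    (h1 : ∀ p ∈ U, -C * Real.log (2 + f p 0 ^ 2 + f p 1 ^ 2) ≤ f p 2)
    (h2 : ∀ p ∈ V, f p 2 ≤ C * Real.log (2 + f p 0 ^ 2 + f p 1 ^ 2)) :
    ∃ (S : M → ℝ) (K : Set M) (c a : ℝ), Sm S ∧ IsCompact K ∧ 0 ≤ c ∧ 0 < a ∧
      (∀ t, IsCompact {p | S p ≤ t}) ∧ ∀ p ∉ K, |f p 2| ≤ S p ∧
        lapBel f S p ≤ c * lapBel f (fun x => Real.log (a ^ 2 + wf f x)) p ∧
        (f p 2 ^ 2 < f p 0 ^ 2 + f p 1 ^ 2 → lapBel f S p ≤ 0) := by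
  classical
  obtain ⟨k, hk⟩ : ∃ k, k = 4 * |C| + 1 := ⟨_, rfl⟩
  obtain ⟨a, ha⟩ : ∃ a, a = 16 * (75 * k) := ⟨_, rfl⟩
  have k1 : 1 ≤ k := by linarith [abs_nonneg C]
  have a0 : 0 < a := by linarith
  have a2 : 2 ≤ a ^ 2 := by nlinarith
  have sw : Sm fun p => f p 0 ^ 2 + f p 1 ^ 2 + f p 2 ^ 2 :=
    sm_RcX hf (Φ := fun y => y 0 ^ 2 + y 1 ^ 2 + y 2 ^ 2) (by fun_prop)
  have cp : ∀ r : ℝ, IsCompact {p | f p 0 ^ 2 + f p 1 ^ 2 + f p 2 ^ 2 ≤ r} := fun r =>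
    (hp _ (isCompact_closedBall 0 √r)).of_isClosed_subset
      (isClosed_le sw.continuous continuous_const) fun p h => by
        rw [mem_preimage, mem_closedBall_zero_iff]
        refine Real.le_sqrt_of_sq_le ?_
        rwa [EuclideanSpace.real_norm_sq_eq, Fin.sum_univ_three]
  obtain ⟨R0, hR0⟩ := hc.bddAbove_image sw.continuous.continuousOn
  obtain ⟨R, hR, r1⟩ : ∃ R, 6 * a ^ 2 ≤ R ∧
      ∀ p, R ≤ f p 0 ^ 2 + f p 1 ^ 2 + f p 2 ^ 2 → p ∈ U ∪ V :=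
    ⟨max (6 * a ^ 2) (R0 + 1), le_max_left _ _, fun p h => by
      by_contra h'
      linarith [hR0 (mem_image_of_mem _ h'), le_max_right (6 * a ^ 2) (R0 + 1)]⟩
  obtain ⟨ε, e1, e2⟩ : ∃ ε : M → ℝ, (∀ p ∈ U, ε p = 2) ∧ ∀ p ∈ V, ε p = -2 :=
    ⟨U.piecewise (fun _ => 2) fun _ => -2, fun p h => piecewise_eq_of_mem _ _ _ h,
      fun p h => piecewise_eq_of_notMem _ _ _ (disjoint_right.1 hd h)⟩
  have e3 : ∀ p ∈ U ∪ V, ∀ᶠ x in 𝓝 p, ε x = ε p := fun p h => h.elim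
    (fun h => (hU.eventually_mem h).mono fun x hx => (e1 x hx).trans (e1 p h).symm)
    fun h => (hV.eventually_mem h).mono fun x hx => (e2 x hx).trans (e2 p h).symm
  obtain ⟨S, hS⟩ : ∃ S : M → ℝ, S = fun p => P_RcX k (a ^ 2) (f p) +
    g_RcX (75 * k) a 0 (f p 2) + ε p *
      (Real.smoothTransition (f p 0 ^ 2 + f p 1 ^ 2 + f p 2 ^ 2 - R) * f p 2) := ⟨_, rfl⟩
  have sS : Sm S := by
    rw [hS]
    refine ((smP_RcX hf k (by positivity)).add (smg_RcX hf _ 0 a0)).add fun p => ?_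
    by_cases h : p ∈ U ∪ V
    · refine (sm_RcX hf (Φ := fun y => ε p * (Real.smoothTransition
        (y 0 ^ 2 + y 1 ^ 2 + y 2 ^ 2 - R) * y 2)) (contDiff_const.mul
          ((Real.smoothTransition.contDiff.comp (by fun_prop)).mul (by fun_prop)))
        p).congr_of_eventuallyEq ((e3 p h).mono fun x hx => ?_)
      simp only [hx]
    · refine (contMDiffAt_const (c := (0 : ℝ))).congr_of_eventuallyEq
        ((sw.continuous.continuousAt.eventually_lt continuousAt_const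
          (lt_of_not_ge fun h' => h (r1 p h'))).mono fun x hx => ?_)
      simp only [Real.smoothTransition.zero_of_nonpos (sub_nonpos.2 hx.le), zero_mul, mul_zero]
  have far : ∀ p, R + 1 < f p 0 ^ 2 + f p 1 ^ 2 + f p 2 ^ 2 → S =ᶠ[𝓝 p] fun x =>
      P_RcX k (a ^ 2) (f x) + g_RcX (75 * k) a (ε p) (f x 2) := fun p h =>
    ((e3 p (r1 p (by linarith))).and (continuousAt_const.eventually_lt
      sw.continuous.continuousAt h)).mono fun x hx => by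
        simp only [hS, hx.1, g_RcX,
          Real.smoothTransition.one_of_one_le (le_sub_iff_add_le'.2 hx.2.le)]
        ring
  have low : ∀ p, R + 1 < f p 0 ^ 2 + f p 1 ^ 2 + f p 2 ^ 2 →
      0 ≤ Real.log (a ^ 2 + (f p 0 ^ 2 + f p 1 ^ 2)) ∧
      |f p 2| + Real.log (a ^ 2 + (f p 0 ^ 2 + f p 1 ^ 2)) ≤ S p := fun p h => by
    have q0 : 0 ≤ f p 0 ^ 2 + f p 1 ^ 2 := by positivity
    have b1 := (low_RcX (by linarith) ha (by linarith) (ε p) (f p)).trans_eq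
      (far p h).self_of_nhds.symm
    have b2 := Real.log_nonneg (show 1 ≤ 2 + f p 0 ^ 2 + f p 1 ^ 2 by linarith)
    have b3 := Real.log_le_log (by linarith)
      (show 2 + f p 0 ^ 2 + f p 1 ^ 2 ≤ a ^ 2 + (f p 0 ^ 2 + f p 1 ^ 2) by linarith)
    have b4 := mul_le_mul (le_abs_self C) b3 b2 (abs_nonneg C)
    have b5 := mul_nonneg (abs_nonneg C) (b2.trans b3)
    rw [hk] at b1
    refine ⟨b2.trans b3, ?_⟩
    rcases r1 p (by linarith) with h' | h'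
    · rw [e1 p h'] at b1
      rcases abs_cases (f p 2) with h3 | h3 <;> linarith [h1 p h', h3.1, h3.2]
    · rw [e2 p h'] at b1
      rcases abs_cases (f p 2) with h3 | h3 <;> linarith [h2 p h', h3.1, h3.2]
  refine ⟨S, _, 225 * k, a, sS, cp (R + 1), by linarith, a0, fun t => ?_, fun p h => ?_⟩
  · refine ((cp (R + 1)).union (cp (Real.exp t + t ^ 2))).of_isClosed_subset
      (isClosed_le sS.continuous continuous_const) fun p h => ?_
    refine or_iff_not_imp_left.2 fun h' => ?_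
    obtain ⟨b1, b2⟩ := low p (lt_of_not_ge fun e => h' e)
    have b3 : |f p 2| ≤ t := by linarith [show S p ≤ t from h]
    have b4 := (Real.log_le_iff_le_exp (by positivity)).1
      (show Real.log (a ^ 2 + (f p 0 ^ 2 + f p 1 ^ 2)) ≤ t by
        linarith [show S p ≤ t from h, abs_nonneg (f p 2)])
    have b5 := pow_le_pow_left₀ (abs_nonneg _) b3 2
    rw [sq_abs] at b5
    rw [mem_ofPred_eq]
    linarith
  · have h' : R + 1 < f p 0 ^ 2 + f p 1 ^ 2 + f p 2 ^ 2 := lt_of_not_ge fun e => h e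
    obtain ⟨b1, b2⟩ := low p h'
    obtain ⟨-, -, c1, c2⟩ := lap_RcX hf (k := k) (by linarith) a0 (ε p) p
    rw [← (rLap M f hf p).1 _ _ (far p h')] at c1 c2
    exact ⟨by linarith, c1, fun hz => c2 (by linarith)⟩

end Pool.Agent.MP_943ae2_gt
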