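import Pool.Agent.MP_943ae2_gt.Rc.Stm

open scoped Manifold ContDiff RealInnerProductSpace Topology
open Set MeasureTheory

namespace Pool.Agent.MP_943ae2_gt

/-- The integral over an open set `O` of a derivative of a smooth function that vanishes off a
compact subset of `O` is zero. -/
theorem div_RcGreen {O T : Set E2} (hO : IsOpen O) (hT : IsCompact T) (hTO : T ⊆ O)
    {Y : E2 → ℝ} (hY : ∀ x ∈ O, ContDiffAt ℝ ∞ Y x) (h0 : ∀ x ∈ O, x ∉ T → Y x = 0)
    (i : Fin 2) : IntegrableOn (pd Y i) O ∧ ∫ x in O, pd Y i x = 0 := by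
  set Z : E2 → ℝ := O.indicator Y with hZ
  have e1 : ∀ x ∈ O, Z =ᶠ[𝓝 x] Y := fun x hx => by
    filter_upwards [hO.mem_nhds hx] with y hy
    simp [hZ, hy]
  have z0 : ∀ y, y ∉ T → Z y = 0 := fun y hy => by
    by_cases h : y ∈ O
    · simp [hZ, h, h0 y h hy]
    · simp [hZ, h]
  have e2 : ∀ x, x ∉ T → Z =ᶠ[𝓝 x] fun _ => 0 := fun x hx => by
    filter_upwards [hT.isClosed.isOpen_compl.mem_nhds hx] with y hy
    exact z0 y hy
  have hZc : ContDiff ℝ ∞ Z := by
    refine contDiff_iff_contDiffAt.2 fun x => ?_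
    by_cases hx : x ∈ O
    · exact (hY x hx).congr_of_eventuallyEq (e1 x hx)
    · exact contDiffAt_const.congr_of_eventuallyEq (e2 x fun h => hx (hTO h))
  have hZs : HasCompactSupport Z := HasCompactSupport.intro hT z0
  have hpc : Continuous (pd Z i) :=
    (contDiff_iff_contDiffAt.2 fun x => cd_pd hZc.contDiffAt i).continuous
  have hp0 : ∀ x, x ∉ T → pd Z i x = 0 := fun x hx => by
    simp [pd, (e2 x hx).fderiv_eq]
  have hps : HasCompactSupport (pd Z i) := HasCompactSupport.intro hT hp0
  have hpi : Integrable (pd Z i) := hpc.integrable_of_hasCompactSupport hps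
  have hZi : Integrable Z := hZc.continuous.integrable_of_hasCompactSupport hZs
  have hint : ∫ x, pd Z i x = 0 := by
    have h := integral_mul_fderiv_eq_neg_fderiv_mul_of_integrable (μ := (volume : Measure E2))
      (f := fun _ => (1 : ℝ)) (g := Z) (v := EuclideanSpace.single i 1) (by simp)
      (by simp only [one_mul]; exact hpi) (by simpa using hZi)
      (fun x _ => differentiableAt_const _)
      (fun x _ => hZc.contDiffAt.differentiableAt (by simp))
    simpa [pd] using h
  have hEq : EqOn (pd Z i) (pd Y i) O := fun x hx => by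
    simp [pd, (e1 x hx).fderiv_eq]
  refine ⟨hpi.integrableOn.congr_fun hEq hO.measurableSet, ?_⟩
  rw [← setIntegral_congr_fun hO.measurableSet hEq,
    setIntegral_eq_integral_of_forall_compl_eq_zero fun x hx => hp0 x fun h => hx (hTO h), hint]

theorem pd_mul_RcGreen {u v : E2 → ℝ} {x : E2} (hu : ContDiffAt ℝ ∞ u x)
    (hv : ContDiffAt ℝ ∞ v x) (i : Fin 2) :
    pd (fun y => u y * v y) i x = u x * pd v i x + v x * pd u i x := by
  unfold pd
  rw [fderiv_fun_mul (hu.differentiableAt (by simp)) (hv.differentiableAt (by simp))]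
  simp

section
variable {M : Type} [TopologicalSpace M] [ChartedSpace E2 M] [IsManifold (𝓡 2) ∞ M]

theorem zero_RcGreen (hG : RGam) {f : M → E3} (hf : IsMinimal f) (a b : M → ℝ) {q : M}
    (hq : q ∉ tsupport a) : a q * lapBel f b q + Gam f a b q = 0 := by
  have h1 : a =ᶠ[𝓝 q] fun _ => 0 := notMem_tsupport_iff_eventuallyEq.1 hq
  rw [(hG M f hf q).2.1 a (fun _ => 0) b h1, (hG M f hf q).2.2.1 0 b, h1.eq_of_nhds]
  simp

variable [T2Space M] [MeasurableSpace M] [BorelSpace M]

theorem cont_RcGreen (hM : RMeas) {f : M → E3} {μ : Measure M} (hf : IsMinimal f)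
    (hμ : IsArea f μ) {a b : M → ℝ} (ha : Sm a) (hb : Sm b) :
    Continuous fun q => a q * lapBel f b q + Gam f a b q :=
  (ha.continuous.mul ((hM M f μ hf hμ).2.2.2.1 b hb)).add ((hM M f μ hf hμ).2.2.1 a b ha hb)

theorem intg_RcGreen (hG : RGam) (hM : RMeas) {f : M → E3} {μ : Measure M} (hf : IsMinimal f)
    (hμ : IsArea f μ) {a b : M → ℝ} (ha : Sm a) (hb : Sm b) (hc : HasCompactSupport a) :
    Integrable (fun q => a q * lapBel f b q + Gam f a b q) μ := by
  have := (hM M f μ hf hμ).1
  exact (cont_RcGreen hM hf hμ ha hb).integrable_of_hasCompactSupport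
    (HasCompactSupport.intro hc fun q hq => zero_RcGreen hG hf a b hq)

/-- Green's formula for a function supported in one chart. -/
theorem chart_RcGreen (hI : RInv) (hG : RGam) (hM : RMeas) {f : M → E3} {μ : Measure M}
    (hf : IsMinimal f) (hμ : IsArea f μ) {a b : M → ℝ} (ha : Sm a) (hb : Sm b)
    (hc : HasCompactSupport a) (p : M) (hp : tsupport a ⊆ (chartAt E2 p).source) :
    ∫ q, (a q * lapBel f b q + Gam f a b q) ∂μ = 0 := by
  rw [← setIntegral_eq_integral_of_forall_compl_eq_zero (s := (chartAt E2 p).source)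
    fun q hq => zero_RcGreen hG hf a b fun h => hq (hp h),
    (hM M f μ hf hμ).2.2.2.2 p _ (cont_RcGreen hM hf hμ ha hb)]
  have hO : IsOpen (chartAt E2 p).target := (chartAt E2 p).open_target
  have hT : IsCompact (chartAt E2 p '' tsupport a) :=
    IsCompact.image_of_continuousOn hc ((chartAt E2 p).continuousOn.mono hp)
  have hTO : chartAt E2 p '' tsupport a ⊆ (chartAt E2 p).target := by
    rintro _ ⟨q, hq, rfl⟩
    exact (chartAt E2 p).map_source (hp hq)
  have hinv : ∀ x ∈ (chartAt E2 p).target, 0 < dens f p x ∧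
      gamAt f a b p x = Gam f a b ((chartAt E2 p).symm x) ∧
      lapAt f b p x = lapBel f b ((chartAt E2 p).symm x) := fun x hx => by
    have h := hI M f hf p _ ((chartAt E2 p).map_target hx)
    rw [(chartAt E2 p).right_inv hx] at h
    exact ⟨h.1, h.2.1 a b ha hb, h.2.2 b hb⟩
  have hl0 : ∀ x ∈ (chartAt E2 p).target, x ∉ chartAt E2 p '' tsupport a → loc a p x = 0 := by
    intro x hx hxT
    by_contra h
    exact hxT ⟨_, subset_tsupport a h, (chartAt E2 p).right_inv hx⟩
  have h0 := div_RcGreen hO hT hTO (Y := fun y => loc a p y * flx0 f b p y)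
    (fun x hx => (cd_loc ha p hx).mul (cd_flx0 hf hb p hx (hinv x hx).1))
    (fun x hx hxT => by simp [hl0 x hx hxT]) 0
  have h1 := div_RcGreen hO hT hTO (Y := fun y => loc a p y * flx1 f b p y)
    (fun x hx => (cd_loc ha p hx).mul (cd_flx1 hf hb p hx (hinv x hx).1))
    (fun x hx hxT => by simp [hl0 x hx hxT]) 1
  have hEq : EqOn (fun x => dens f p x * (a ((chartAt E2 p).symm x) *
      lapBel f b ((chartAt E2 p).symm x) + Gam f a b ((chartAt E2 p).symm x)))
      (fun x => pd (fun y => loc a p y * flx0 f b p y) 0 x +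
        pd (fun y => loc a p y * flx1 f b p y) 1 x) (chartAt E2 p).target := by
    intro x hx
    obtain ⟨hd, hg, hl⟩ := hinv x hx
    have hd' := hd.ne'
    have ea : a ((chartAt E2 p).symm x) = loc a p x := rfl
    simp only []
    rw [pd_mul_RcGreen (cd_loc ha p hx) (cd_flx0 hf hb p hx hd),
      pd_mul_RcGreen (cd_loc ha p hx) (cd_flx1 hf hb p hx hd), ← hg, ← hl, ea]
    unfold gamAt lapAt
    rw [show flx0 f b p x = (met f p 1 1 x * pd (loc b p) 0 x -
        met f p 0 1 x * pd (loc b p) 1 x) / dens f p x from rfl,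
      show flx1 f b p x = (met f p 0 0 x * pd (loc b p) 1 x -
        met f p 0 1 x * pd (loc b p) 0 x) / dens f p x from rfl]
    field_simp
    ring
  rw [setIntegral_congr_fun hO.measurableSet hEq, integral_add h0.1 h1.1, h0.2, h1.2, add_zero]

end

theorem rGreen (hI : RInv) (hG : RGam) (hM : RMeas) : RGreen := by
  intro M _ _ _ _ _ _ f μ hf hμ a b ha hb hc
  classical
  let ψ : ∀ p : M, SmoothBumpFunction (𝓡 2) p := fun p => Classical.choice inferInstance
  let W : M → Set M := fun p => interior {q | ψ p q = 1}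
  have hW : ∀ p, W p ∈ 𝓝 p := fun p =>
    interior_mem_nhds.2 ((ψ p).eventuallyEq_one.mono fun q hq => hq)
  have key : ∀ t : Finset M, ∀ a : M → ℝ, Sm a → HasCompactSupport a →
      tsupport a ⊆ ⋃ p ∈ t, W p → ∫ q, (a q * lapBel f b q + Gam f a b q) ∂μ = 0 := by
    intro t
    induction t using Finset.induction_on with
    | empty =>
      intro a _ _ h
      have : ∀ q, a q * lapBel f b q + Gam f a b q = 0 := fun q =>
        zero_RcGreen hG hf a b fun hq => by simpa using h hq
      simp [this]
    | insert p t _ ih =>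
      intro a ha hc h
      have hψ : Sm (ψ p) := (ψ p).contMDiff
      have s1 : Sm fun q => ψ p q * a q := hψ.mul ha
      have s2 : Sm fun q => (1 - ψ p q) * a q := (contMDiff_const.sub hψ).mul ha
      have c1 : HasCompactSupport fun q => ψ p q * a q := hc.mul_left
      have c2 : HasCompactSupport fun q => (1 - ψ p q) * a q := hc.mul_left
      have i1 := chart_RcGreen hI hG hM hf hμ s1 hb c1 p
        ((tsupport_mul_subset_left).trans (ψ p).tsupport_subset_chartAt_source)
      have i2 := ih _ s2 c2 (by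
        intro q hq
        have hqa : q ∈ tsupport a := tsupport_mul_subset_right hq
        have hqW : q ∉ W p := fun hq' => by
          refine (notMem_tsupport_iff_eventuallyEq.2 ?_) hq
          filter_upwards [mem_interior_iff_mem_nhds.1 hq'] with y hy
          have hy' : ψ p y = 1 := hy
          simp [hy']
        have h3 := h hqa
        rw [Finset.set_biUnion_insert] at h3
        exact h3.resolve_left hqW)
      have e : ∀ q, a q * lapBel f b q + Gam f a b q =
          (ψ p q * a q * lapBel f b q + Gam f (fun q => ψ p q * a q) b q) +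
          ((1 - ψ p q) * a q * lapBel f b q + Gam f (fun q => (1 - ψ p q) * a q) b q) := by
        intro q
        have h4 := (hG M f hf q).2.2.2.1 _ _ b s1 s2
        have h5 : (fun x => ψ p x * a x + (1 - ψ p x) * a x) = a := by
          funext x
          ring
        rw [h5] at h4
        rw [h4]
        ring
      simp only [e]
      rw [integral_add (intg_RcGreen hG hM hf hμ s1 hb c1) (intg_RcGreen hG hM hf hμ s2 hb c2),
        i1, i2, add_zero]
  obtain ⟨t, -, ht⟩ := IsCompact.elim_nhds_subcover hc W fun p _ => hW p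
  exact key t a ha hc ht

end Pool.Agent.MP_943ae2_gt
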