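import Pool.Agent.MP_943ae2_gt.Rc.Stm

open scoped Manifold ContDiff RealInnerProductSpace Topology
open Set MeasureTheory

namespace Pool.Agent.MP_943ae2_gt

theorem chi_RcIter : ∃ (χ χ' : ℝ → ℝ) (L : ℝ), ContDiff ℝ ∞ χ ∧ (∀ t, HasDerivAt χ (χ' t) t) ∧
    (∀ t, 0 ≤ χ t ∧ χ t ≤ 1) ∧ (∀ t, t ≤ 0 → χ t = 1) ∧ (∀ t, 1 ≤ t → χ t = 0) ∧ Antitone χ ∧
    0 < L ∧ (∀ t, -L ≤ χ' t ∧ χ' t ≤ 0) ∧ (∀ t, t < 0 → χ' t = 0) ∧ ∀ t, 1 < t → χ' t = 0 := by
  set χ : ℝ → ℝ := fun t => Real.smoothTransition (1 - t) with hχ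
  have h1 : ContDiff ℝ ∞ χ :=
    Real.smoothTransition.contDiff.comp (f := fun t : ℝ => 1 - t) (by fun_prop)
  have h2 : ∀ t, t ≤ 0 → χ t = 1 := fun t h => Real.smoothTransition.one_of_one_le (by linarith)
  have h3 : ∀ t, 1 ≤ t → χ t = 0 := fun t h => Real.smoothTransition.zero_of_nonpos (by linarith)
  have h4 : Antitone χ := fun a b h => Real.smoothTransition.monotone (by linarith)
  have h5 : ∀ t, t < 0 → deriv χ t = 0 := fun t h => by
    have : χ =ᶠ[𝓝 t] fun _ => 1 := (gt_mem_nhds h).mono fun s hs => h2 s hs.le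
    rw [this.deriv_eq, deriv_const]
  have h6 : ∀ t, 1 < t → deriv χ t = 0 := fun t h => by
    have : χ =ᶠ[𝓝 t] fun _ => 0 := (lt_mem_nhds h).mono fun s hs => h3 s hs.le
    rw [this.deriv_eq, deriv_const]
  obtain ⟨C, hC⟩ := (isCompact_Icc (a := (0 : ℝ)) (b := 1)).exists_bound_of_continuousOn
    (h1.continuous_deriv (by simp)).continuousOn
  refine ⟨χ, deriv χ, |C| + 1, h1, fun t => (h1.differentiable (by simp) t).hasDerivAt,
    fun t => ⟨Real.smoothTransition.nonneg _, Real.smoothTransition.le_one _⟩, h2, h3, h4,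
    by positivity, fun t => ⟨?_, h4.deriv_nonpos⟩, h5, h6⟩
  have := abs_nonneg C
  rcases lt_or_ge t 0 with h | h
  · linarith [h5 t h]
  · rcases lt_or_ge 1 t with h' | h'
    · linarith [h6 t h']
    · linarith [(abs_le.1 (hC t ⟨h, h'⟩)).1, le_abs_self C]

theorem real_RcIter {E d : ℕ → ℝ} (hE : Monotone E) (hd : ∀ k, 0 < d k)
    (h : ∀ k s, 0 < s → E (k + 1) ≤ d k / s + s * (E (k + 1) - E k))
    (hs : ¬ Summable fun k => 1 / d k) (k0 : ℕ) : E k0 ≤ 0 := by
  by_contra h0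
  have p : ∀ k, 0 < E (k + k0) := fun k => (not_le.1 h0).trans_le (hE (by omega))
  have h1 : ∀ k, 1 / d (k + k0) ≤ 4 / E (k + k0) - 4 / E (k + 1 + k0) := fun k => by
    have a := p k
    have b := p (k + 1)
    have c := hd (k + k0)
    have m : E (k + k0) ≤ E (k + 1 + k0) := hE (by omega)
    have h2 := h (k + k0) (2 * d (k + k0) / E (k + 1 + k0)) (by positivity)
    rw [show k + k0 + 1 = k + 1 + k0 by ring] at h2
    have h3 := mul_le_mul_of_nonneg_right h2 b.le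
    have e : (d (k + k0) / (2 * d (k + k0) / E (k + 1 + k0)) + 2 * d (k + k0) / E (k + 1 + k0) *
        (E (k + 1 + k0) - E (k + k0))) * E (k + 1 + k0) = E (k + 1 + k0) ^ 2 / 2 +
        2 * d (k + k0) * (E (k + 1 + k0) - E (k + k0)) := by field_simp
    rw [e] at h3
    rw [div_sub_div _ _ a.ne' b.ne', div_le_div_iff₀ c (by positivity)]
    nlinarith [mul_le_mul_of_nonneg_right m b.le]
  refine hs ((summable_nat_add_iff k0).1 (summable_of_sum_range_le (c := 4 / E (0 + k0))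
    (fun k => (one_div_pos.2 (hd _)).le) fun n => ?_))
  refine (Finset.sum_le_sum fun k _ => h1 k).trans ?_
  rw [Finset.sum_range_sub' fun k => 4 / E (k + k0)]
  linarith [div_pos four_pos (p n)]

theorem rIter (hG : RGam) (hC : RConst) (hM : RMeas) (hGr : RGreen) : RIter := by
  intro M _ _ _ _ _ _ _ f μ hf hμ S e hS hK he hs hb u hu u0 hΔ
  obtain ⟨χ, χ', L, c1, c2, c3, c4, c5, c6, L0, c7, c8, c9⟩ := chi_RcIter
  obtain ⟨m1, m2, m3, m4, -⟩ := hM M f μ hf hμ
  have hcs : ∀ (φ : M → ℝ) (t : ℝ), (∀ p, t < S p → φ p = 0) → HasCompactSupport φ :=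
    fun φ t h => HasCompactSupport.intro (hK t) fun p hp => h p (not_le.1 hp)
  have intg : ∀ (φ : M → ℝ) (t : ℝ), Continuous φ → (∀ p, t < S p → φ p = 0) → Integrable φ μ :=
    fun φ t h1 h2 => h1.integrable_of_hasCompactSupport (hcs φ t h2)
  set η : ℕ → M → ℝ := fun k p => χ (S p - k) with hη
  have s1 : ∀ k, Sm (η k) := fun k => c1.contMDiff.comp (hS.sub contMDiff_const)
  have s2 : Sm fun p => (u p)⁻¹ := hu.inv₀ fun p => (u0 p).ne'
  have s3 : ∀ k, Sm fun p => η k p * η k p * (u p)⁻¹ := fun k => ((s1 k).mul (s1 k)).mul s2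
  have z1 : ∀ (k : ℕ) p, (k : ℝ) + 1 ≤ S p → η k p = 0 := fun k p h => c5 _ (by linarith)
  have g1 : ∀ (k : ℕ) b p, Gam f (η k) b p = χ' (S p - k) * Gam f S b p := fun k b p =>
    (hG M f hf p).2.2.2.2.2.1 S b (fun t => χ (t - k)) _ hS ((c2 _).comp_sub_const _ _)
  have g2 : ∀ (k : ℕ) p, Gam f (fun p => η k p * η k p * (u p)⁻¹) u p =
      2 * η k p * Gam f (η k) u p / u p - η k p ^ 2 * (Gam f u u p / u p ^ 2) := fun k p => by
    obtain ⟨-, -, -, -, a, b, -⟩ := hG M f hf p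
    rw [a (fun p => η k p * η k p) _ u ((s1 k).mul (s1 k)) s2, a _ _ u (s1 k) (s1 k),
      b u u (fun t => t⁻¹) _ hu (hasDerivAt_inv (u0 p).ne')]
    ring
  have g3 : ∀ a p, 0 ≤ Gam f a a p := fun a p => by
    simpa using (hG M f hf p).2.2.2.2.2.2.1 a a 1 0
  have γ0 : ∀ p, 0 ≤ Gam f u u p / u p ^ 2 := fun p => div_nonneg (g3 u p) (sq_nonneg _)
  have γc : ∀ k, Continuous fun p => η k p ^ 2 * (Gam f u u p / u p ^ 2) := fun k =>
    ((s1 k).continuous.pow 2).mul ((m3 u u hu hu).div (hu.continuous.pow 2)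
      fun p => pow_ne_zero _ (u0 p).ne')
  have γz : ∀ (k : ℕ) p, (k : ℝ) + 1 < S p → η k p ^ 2 * (Gam f u u p / u p ^ 2) = 0 :=
    fun k p h => by simp [z1 k p h.le]
  have i1 : ∀ k, Integrable (fun p => η k p ^ 2 * (Gam f u u p / u p ^ 2)) μ := fun k =>
    intg _ _ (γc k) (γz k)
  have mono : ∀ k l p, k ≤ l → η k p ^ 2 * (Gam f u u p / u p ^ 2) ≤
      η l p ^ 2 * (Gam f u u p / u p ^ 2) := fun k l p h =>
    mul_le_mul_of_nonneg_right (pow_le_pow_left₀ (c3 _).1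
      (c6 (sub_le_sub_left (by exact_mod_cast h) _)) 2) (γ0 p)
  have key := real_RcIter (E := fun k => ∫ p, η k p ^ 2 * (Gam f u u p / u p ^ 2) ∂μ)
    (d := fun k => L * e (k + 2)) (fun k l h => integral_mono (i1 k) (i1 l) fun p => mono k l p h)
    (fun k => mul_pos L0 (he _)) (fun k s s0 => ?_) fun h => hs ((summable_nat_add_iff 2).1
      ((h.mul_left L).congr fun k => by field_simp))
  · refine hC M f hf u hu fun p => ?_
    obtain ⟨k, hk⟩ := exists_nat_ge (S p)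
    by_contra h
    refine (key k).not_gt ((γc k).integral_pos_of_hasCompactSupport_nonneg_nonzero (x := p)
      (hcs _ _ (γz k)) (fun p => mul_nonneg (sq_nonneg _) (γ0 p)) ?_)
    rw [show η k p = 1 from c4 _ (by linarith), one_pow, one_mul]
    exact div_ne_zero h (pow_ne_zero _ (u0 p).ne')
  have z2 : ∀ b p, ((k + 1 : ℕ) : ℝ) + 1 < S p → Gam f (η (k + 1)) b p = 0 := fun b p h => by
    rw [g1, c9 _ (by linarith), zero_mul]
  have i2 : Integrable (fun p => η (k + 1) p * lapBel f S p) μ :=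
    intg _ (((k + 1 : ℕ) : ℝ) + 1) ((s1 _).continuous.mul (m4 S hS)) fun p h => by
      rw [z1 (k + 1) p h.le, zero_mul]
  have i3 : Integrable (fun p => η (k + 1) p * lapBel f S p + Gam f (η (k + 1)) S p) μ :=
    i2.add (intg _ _ (m3 _ _ (s1 _) hS) (z2 S))
  have i4 : Integrable (fun p => η (k + 1) p * η (k + 1) p * (u p)⁻¹ * lapBel f u p +
      Gam f (fun p => η (k + 1) p * η (k + 1) p * (u p)⁻¹) u p) μ :=
    intg _ (((k + 1 : ℕ) : ℝ) + 1) (((s3 _).continuous.mul (m4 u hu)).add (m3 _ _ (s3 _) hu))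
      fun p h => by simp [g2, z1 (k + 1) p h.le]
  have G1 := hGr M f μ hf hμ _ S (s1 (k + 1)) hS (hcs _ _ fun p h => z1 (k + 1) p h.le)
  have G2 := hGr M f μ hf hμ _ u (s3 (k + 1)) hu
    (hcs _ (((k + 1 : ℕ) : ℝ) + 1) fun p h => by simp [z1 (k + 1) p h.le])
  have G3 := hb (k + 2) (η (k + 1)) (s1 _).continuous (fun p => c3 _) fun p h =>
    z1 _ p (by push_cast at h ⊢; linarith)
  have h := integral_mono (i1 (k + 1)) ((((i2.sub i3).const_mul (L / s)).sub i4).add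
    (((i1 (k + 1)).sub (i1 k)).const_mul s)) fun p => ?_
  · rw [integral_add' (((i2.sub i3).const_mul (L / s)).sub i4)
      (((i1 (k + 1)).sub (i1 k)).const_mul s), integral_sub' ((i2.sub i3).const_mul (L / s)) i4,
      integral_const_mul, integral_const_mul, integral_sub' i2 i3,
      integral_sub' (i1 (k + 1)) (i1 k), G1, G2, sub_zero, sub_zero] at h
    refine h.trans (add_le_add_left ?_ _)
    rw [mul_div_right_comm]
    exact mul_le_mul_of_nonneg_left G3 (by positivity)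
  have a1 : η (k + 1) p * η (k + 1) p * (u p)⁻¹ * lapBel f u p ≤ 0 :=
    mul_nonpos_of_nonneg_of_nonpos (mul_nonneg (mul_self_nonneg _) (inv_pos.2 (u0 p)).le) (hΔ p)
  have a2 : Gam f (η (k + 1)) (η (k + 1)) p ≤ -L * Gam f (η (k + 1)) S p := by
    rw [g1, (hG M f hf p).1, g1]
    obtain ⟨b1, b2⟩ := c7 (S p - (k + 1 : ℕ))
    nlinarith [mul_nonneg (mul_nonneg (neg_nonneg.2 b2) (sub_nonneg.2 b1)) (g3 S p)]
  have a3 : 2 * η (k + 1) p * Gam f (η (k + 1)) u p / u p ≤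
      Gam f (η (k + 1)) (η (k + 1)) p / s + s * (η (k + 1) p ^ 2 * (Gam f u u p / u p ^ 2) -
        η k p ^ 2 * (Gam f u u p / u p ^ 2)) := by
    rcases le_or_gt ((k : ℝ) + 1) (S p) with h | h
    · have b := div_nonneg ((hG M f hf p).2.2.2.2.2.2.1 (η (k + 1)) u 1
        (-(s * η (k + 1) p / u p))) s0.le
      rw [z1 k p h, ← sub_nonneg]
      refine b.trans_eq ?_
      field_simp
      ring
    · simp only [g1 (k + 1), c8 _ (show S p - (k + 1 : ℕ) < 0 by push_cast; linarith), zero_mul,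
        mul_zero, zero_div, zero_add]
      exact mul_nonneg s0.le (sub_nonneg.2 (mono k (k + 1) p k.le_succ))
  have a4 := div_le_div_of_nonneg_right a2 s0.le
  simp only [Pi.add_apply, Pi.sub_apply, g2]
  have e : L / s * (η (k + 1) p * lapBel f S p -
      (η (k + 1) p * lapBel f S p + Gam f (η (k + 1)) S p)) = -L * Gam f (η (k + 1)) S p / s := by
    ring
  linarith

end Pool.Agent.MP_943ae2_gt
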