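import Pool.Agent.MP_943ae2_gt.Rc.Meas
import Pool.Agent.MP_943ae2_gt.Rc.Green
import Pool.Agent.MP_943ae2_gt.Rc.Exh2
import Pool.Agent.MP_943ae2_gt.Rc.Iter

open scoped Manifold ContDiff RealInnerProductSpace Topology
open Set MeasureTheory

noncomputable section

namespace Pool.Agent.MP_943ae2_gt

theorem rc_series {a : ℕ → ℝ} (h0 : ∀ k, 0 ≤ a k) (hm : Monotone a)
    (h : Summable fun k : ℕ => 1 / (1 + a (2 * k + 2) / ((k : ℝ) + 1) ^ 2)) :
    Summable fun k : ℕ => (k : ℝ) ^ 2 / (1 + a k) := by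
  have h1 : Summable fun k : ℕ => 9 * (((k : ℝ) + 1) ^ 2 / (1 + a (2 * k + 2))) := by
    refine Summable.mul_left 9 ((h.mul_left 2).of_norm_bounded_eventually_nat ?_)
    filter_upwards [h.tendsto_atTop_zero.eventually (gt_mem_nhds (show (0 : ℝ) < 1 / 2 by
      norm_num))] with k hk
    have := h0 (2 * k + 2)
    have p : 0 < ((k : ℝ) + 1) ^ 2 := by positivity
    rw [div_lt_div_iff₀ (by positivity) two_pos, one_mul, one_mul, ← sub_lt_iff_lt_add',
      lt_div_iff₀ p] at hk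
    rw [Real.norm_of_nonneg (by positivity), show 2 * (1 / (1 + a (2 * k + 2) / ((k : ℝ) + 1) ^ 2))
      = ((k : ℝ) + 1) ^ 2 / ((((k : ℝ) + 1) ^ 2 + a (2 * k + 2)) / 2) by field_simp]
    gcongr
    linarith
  have h2 : ∀ (k j : ℕ), 2 * k + 2 ≤ j → j ≤ 3 * (k + 1) →
      (j : ℝ) ^ 2 / (1 + a j) ≤ 9 * (((k : ℝ) + 1) ^ 2 / (1 + a (2 * k + 2))) := by
    intro k j e1 e2
    have := h0 (2 * k + 2)
    have e3 : (j : ℝ) ≤ 3 * (k + 1) := by exact_mod_cast e2
    rw [← mul_div_assoc, show 9 * ((k : ℝ) + 1) ^ 2 = (3 * (k + 1)) ^ 2 by ring]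
    gcongr
    exact hm e1
  have p : ∀ j : ℕ, 0 ≤ (j : ℝ) ^ 2 / (1 + a j) := fun j => by have := h0 j; positivity
  refine (summable_nat_add_iff 2).1 (Summable.even_add_odd ?_ ?_)
  · exact h1.of_nonneg_of_le (fun k => p _) fun k => h2 k _ (by omega) (by omega)
  · exact h1.of_nonneg_of_le (fun k => p _) fun k => h2 k _ (by omega) (by omega)

theorem wf_eq {M : Type} (f : M → E3) (p : M) : wf f p = ‖f p‖ ^ 2 := by
  rw [EuclideanSpace.real_norm_sq_eq, Fin.sum_univ_three, wf]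

variable {M : Type} [TopologicalSpace M] [ChartedSpace E2 M] [IsManifold (𝓡 2) ∞ M] [T2Space M]
  [MeasurableSpace M] [BorelSpace M]

/-- the flux of `log (a² + |x|²)` is bounded by the area of a ball -/
theorem rc_flux {f : M → E3} (hf : IsMinimal f) (hp : ∀ K, IsCompact K → IsCompact (f ⁻¹' K))
    {μ : Measure M} (hμ : IsArea f μ) {a : ℝ} (ha : 0 < a) : ∃ L, 0 ≤ L ∧ ∀ R, 0 < R →
      ∃ ζ : M → ℝ, (∀ p, 0 ≤ ζ p) ∧ (∀ p, wf f p ≤ 2 * R ^ 2 → ζ p = 1) ∧
        Integrable (fun p => ζ p * lapBel f (fun x => Real.log (a ^ 2 + wf f x)) p) μ ∧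
        ∫ p, ζ p * lapBel f (fun x => Real.log (a ^ 2 + wf f x)) p ∂μ ≤
          L * ((μ (f ⁻¹' Metric.ball 0 (2 * R))).toReal / R ^ 2) := by
  obtain ⟨χ, χ', L, c1, c2, c3, c4, c5, -, L0, c7, -, c9⟩ := chi_RcIter
  obtain ⟨hfin, -, hcg, hcl, -⟩ := rMeas rInv M f μ hf hμ
  refine ⟨4 * L, by positivity, fun R hR => ?_⟩
  have sw : Sm (wf f) := sm_RcX hf (Φ := fun y => y 0 ^ 2 + y 1 ^ 2 + y 2 ^ 2) (by fun_prop)
  have w0 : ∀ p, 0 < a ^ 2 + wf f p := fun p => by unfold wf; positivity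
  have sP : Sm fun x => Real.log (a ^ 2 + wf f x) := fun x =>
    (Real.contDiffAt_log.2 (w0 x).ne').comp_contMDiffAt (f := fun x => a ^ 2 + wf f x)
      (sadd_RcX contMDiff_const sw x)
  have sz : Sm fun x => χ (wf f x / R ^ 2 - 2) :=
    c1.contMDiff.comp ((sw.div_const _).sub contMDiff_const)
  have hB : IsCompact (f ⁻¹' Metric.closedBall 0 (2 * R)) := hp _ (isCompact_closedBall _ _)
  have hb : ∀ p, p ∉ f ⁻¹' Metric.ball 0 (2 * R) → 1 < wf f p / R ^ 2 - 2 := fun p h => by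
    rw [mem_preimage, mem_ball_zero_iff, not_lt] at h
    have := pow_le_pow_left₀ (by positivity) h 2
    rw [lt_sub_iff_add_lt, lt_div_iff₀ (by positivity), wf_eq]
    nlinarith [pow_pos hR 2]
  have hb' : ∀ p, p ∉ f ⁻¹' Metric.closedBall 0 (2 * R) → 1 < wf f p / R ^ 2 - 2 :=
    fun p h => hb p fun h' => h (Metric.ball_subset_closedBall h')
  have cs : HasCompactSupport fun x => χ (wf f x / R ^ 2 - 2) :=
    HasCompactSupport.intro hB fun p h => c5 _ (hb' p h).le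
  have eg : ∀ p, Gam f (fun x => χ (wf f x / R ^ 2 - 2)) (fun x => Real.log (a ^ 2 + wf f x)) p =
      χ' (wf f p / R ^ 2 - 2) / R ^ 2 * (Gam f (wf f) (wf f) p / (a ^ 2 + wf f p)) := fun p => by
    obtain ⟨g1, -, -, -, -, g6, -⟩ := rGam M f hf p
    rw [g6 (wf f) _ (fun t => χ (t / R ^ 2 - 2)) _ sw
      ((c2 _).comp _ (((hasDerivAt_id _).div_const _).sub_const 2)), g1,
      g6 (wf f) _ (fun t => Real.log (a ^ 2 + t)) _ sw
        (((hasDerivAt_id _).const_add _).log (w0 p).ne')]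
    ring
  have i1 : Integrable (fun p => χ (wf f p / R ^ 2 - 2) *
      lapBel f (fun x => Real.log (a ^ 2 + wf f x)) p) μ :=
    (sz.continuous.mul (hcl _ sP)).integrable_of_hasCompactSupport cs.mul_right
  have i2 : Integrable (Gam f (fun x => χ (wf f x / R ^ 2 - 2))
      fun x => Real.log (a ^ 2 + wf f x)) μ :=
    (hcg _ _ sz sP).integrable_of_hasCompactSupport (HasCompactSupport.intro hB fun p h => by
      rw [eg, c9 _ (hb' p h), zero_div, zero_mul])
  have hm : MeasurableSet (f ⁻¹' Metric.ball 0 (2 * R)) :=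
    (Metric.isOpen_ball.preimage hf.smooth.continuous).measurableSet
  have i3 : Integrable ((f ⁻¹' Metric.ball 0 (2 * R)).indicator fun _ => 4 * L / R ^ 2) μ :=
    (integrableOn_const ((measure_mono (preimage_mono Metric.ball_subset_closedBall)).trans_lt
      hB.measure_lt_top).ne).integrable_indicator hm
  refine ⟨_, fun p => (c3 _).1, fun p h => c4 _ ?_, i1, ?_⟩
  · rw [sub_nonpos, div_le_iff₀ (by positivity)]; exact h
  have gr := rGreen rInv rGam (rMeas rInv) M f μ hf hμ _ _ sz sP cs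
  rw [integral_add i1 i2, add_eq_zero_iff_eq_neg, ← integral_neg] at gr
  rw [gr]
  refine (integral_mono i2.neg i3 fun p => ?_).trans_eq ?_
  · rw [Pi.neg_apply, eg]
    by_cases h : p ∈ f ⁻¹' Metric.ball 0 (2 * R)
    · rw [indicator_of_mem h]
      have g0 : 0 ≤ Gam f (wf f) (wf f) p := by
        simpa using (rGam M f hf p).2.2.2.2.2.2.1 (wf f) (wf f) 1 0
      have g1 : Gam f (wf f) (wf f) p / (a ^ 2 + wf f p) ≤ 4 := by
        rw [div_le_iff₀ (w0 p)]
        nlinarith [(lap_RcX hf le_rfl ha 0 p).1, sq_nonneg a]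
      rw [← neg_mul, ← neg_div, mul_comm 4, mul_div_right_comm]
      exact mul_le_mul (div_le_div_of_nonneg_right (by linarith [(c7 (wf f p / R ^ 2 - 2)).1])
        (by positivity)) g1 (div_nonneg g0 (w0 p).le) (by positivity)
    · rw [indicator_of_notMem h, c9 _ (hb p h)]
      simp
  · rw [integral_indicator hm, setIntegral_const, smul_eq_mul, Measure.real]
    ring

theorem rc_final [ConnectedSpace M] (f : M → E3) (hf : IsMinimal f)
    (hp : ∀ K, IsCompact K → IsCompact (f ⁻¹' K))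
    (U V : Set M) (C : ℝ) (hU : IsOpen U) (hV : IsOpen V) (hUV : Disjoint U V)
    (hK : IsCompact (U ∪ V)ᶜ)
    (h1 : ∀ p ∈ U, -C * Real.log (2 + f p 0 ^ 2 + f p 1 ^ 2) ≤ f p 2)
    (h2 : ∀ p ∈ V, f p 2 ≤ C * Real.log (2 + f p 0 ^ 2 + f p 1 ^ 2))
    (μ : Measure M) (hμ : IsArea f μ)
    (hs : ¬ Summable fun k : ℕ => (k : ℝ) ^ 2 / (1 + (μ (f ⁻¹' Metric.ball 0 k)).toReal))
    (u : M → ℝ) (hu : Sm u) (h0 : ∀ p, 0 < u p) (hl : ∀ p, lapBel f u p ≤ 0) (p q : M) :
    u p = u q := by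
  obtain ⟨S, K, c, a, hS, hKc, hc, ha, hcp, hb⟩ := rc_exh hf hp hU hV hUV hK h1 h2
  obtain ⟨hfin, -, -, hcl, -⟩ := rMeas rInv M f μ hf hμ
  obtain ⟨L, L0, hL⟩ := rc_flux hf hp hμ ha
  have cl := hcl S hS
  obtain ⟨c₁, hc₁⟩ : ∃ c₁, c₁ = ∫ p in K, |lapBel f S p| ∂μ := ⟨_, rfl⟩
  have c0 : 0 ≤ c₁ := hc₁ ▸ integral_nonneg fun _ => abs_nonneg _
  obtain ⟨v, hv⟩ : ∃ v : ℕ → ℝ, v = fun k : ℕ => (μ (f ⁻¹' Metric.ball 0 k)).toReal := ⟨_, rfl⟩
  have v0 : ∀ k, 0 ≤ v k := fun k => hv ▸ ENNReal.toReal_nonneg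
  have vm : Monotone v := fun i j hij => by
    rw [hv]
    exact ENNReal.toReal_mono ((measure_mono (preimage_mono Metric.ball_subset_closedBall)).trans_lt
      (hp _ (isCompact_closedBall _ _)).measure_lt_top).ne
      (measure_mono (preimage_mono (Metric.ball_subset_ball (by exact_mod_cast hij))))
  have v1 : ∀ k : ℕ, 0 ≤ v (2 * k + 2) / ((k : ℝ) + 1) ^ 2 := fun k => by
    have := v0 (2 * k + 2); positivity
  have cL : 0 ≤ c * L := mul_nonneg hc L0
  refine rIter rGam rConst (rMeas rInv) (rGreen rInv rGam (rMeas rInv)) M f μ hf hμ S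
    (fun k => (c₁ + c * L + 1) * (1 + v (2 * k + 2) / ((k : ℝ) + 1) ^ 2)) hS hcp
    (fun k => mul_pos (by linarith) (by linarith [v1 k])) (fun h => hs ?_)
    (fun k η cη hη hk => ?_) u hu h0 hl p q
  · have := rc_series v0 vm ((h.mul_left (c₁ + c * L + 1)).congr fun k => by
      have := v1 k
      field_simp)
    rwa [hv] at this
  · obtain ⟨ζ, z0, z1, i2, z2⟩ := hL (k + 1) (by positivity)
    have i1 : Integrable (K.indicator fun p => |lapBel f S p|) μ :=
      (cl.abs.continuousOn.integrableOn_compact hKc).integrable_indicator hKc.measurableSet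
    have i0 : Integrable (fun p => η p * lapBel f S p) μ :=
      (cη.mul cl).integrable_of_hasCompactSupport (HasCompactSupport.intro (hcp k) fun p h => by
        rw [Pi.mul_apply, hk p (not_le.1 h).le, zero_mul])
    refine (integral_mono i0 (i1.add (i2.const_mul c)) fun p => ?_).trans ?_
    · have a1 : 0 ≤ K.indicator (fun p => |lapBel f S p|) p :=
        indicator_nonneg (fun _ _ => abs_nonneg _) p
      have a0 := (lap_RcX hf le_rfl ha 0 p).2.1
      have a2 := mul_nonneg hc (mul_nonneg (z0 p) a0)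
      obtain ⟨b0, b1⟩ := hη p
      have hm : ∀ b, 0 ≤ b → lapBel f S p ≤ b → η p * lapBel f S p ≤ b := fun b hb0 hb1 =>
        (mul_le_mul_of_nonneg_left hb1 b0).trans (mul_le_of_le_one_left hb0 b1)
      simp only [Pi.add_apply]
      by_cases hpK : p ∈ K
      · rw [indicator_of_mem hpK]
        linarith [hm _ (abs_nonneg _) (le_abs_self _)]
      obtain ⟨d1, d2, d3⟩ := hb p hpK
      by_cases hpk : (k : ℝ) ≤ S p
      · rw [hk p hpk, zero_mul]; linarith
      by_cases hq : f p 2 ^ 2 < f p 0 ^ 2 + f p 1 ^ 2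
      · linarith [hm 0 le_rfl (d3 hq)]
      · have d4 := pow_le_pow_left₀ (abs_nonneg _) (show |f p 2| ≤ k + 1 by linarith) 2
        rw [sq_abs] at d4
        rw [z1 p (by unfold wf; linarith), one_mul]
        linarith [hm _ (mul_nonneg hc a0) d2]
    · simp only [Pi.add_apply]
      have e : (μ (f ⁻¹' Metric.ball 0 (2 * ((k : ℝ) + 1)))).toReal = v (2 * k + 2) := by
        rw [hv]; push_cast; ring_nf
      rw [e] at z2
      rw [integral_add i1 (i2.const_mul c), integral_indicator hKc.measurableSet,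
        integral_const_mul, ← hc₁]
      nlinarith [v1 k, mul_nonneg c0 (v1 k), mul_le_mul_of_nonneg_left z2 hc]

end Pool.Agent.MP_943ae2_gt
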