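import Pool.Agent.MP_943ae2_gt.Rc.Stm

open scoped Manifold ContDiff RealInnerProductSpace Topology
open Set MeasureTheory

namespace Pool.Agent.MP_943ae2_gt

theorem cont_RcMeas {M : Type} [TopologicalSpace M] [ChartedSpace E2 M] {F : M → ℝ}
    (G : M → E2 → ℝ) (h1 : ∀ p, ContinuousAt (G p) (ctr p))
    (h2 : ∀ p q, q ∈ (chartAt E2 p).source → G p (chartAt E2 p q) = F q) : Continuous F := by
  refine continuous_iff_continuousAt.2 fun p => ?_
  have h3 : ContinuousAt (fun q => G p (chartAt E2 p q)) p :=
    ContinuousAt.comp (g := G p) (h1 p) ((chartAt E2 p).continuousAt (mem_chart_source E2 p))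
  refine h3.congr ?_
  filter_upwards [chart_source_mem_nhds E2 p] with q hq using h2 p q hq

theorem rMeas (hI : RInv) : RMeas := by
  intro M _ _ _ _ _ _ f μ hf hμ
  have hpos : ∀ p, ∀ x ∈ (chartAt E2 p).target, 0 < dens f p x := by
    intro p x hx
    have := (hI M f hf p _ ((chartAt E2 p).map_target hx)).1
    rwa [(chartAt E2 p).right_inv hx] at this
  have hcont : ∀ p, ContinuousOn (dens f p) (chartAt E2 p).target := fun p x hx =>
    (cd_dens hf p hx (hpos p x hx)).continuousAt.continuousWithinAt
  have hD : ∀ p, AEMeasurable (fun x => ENNReal.ofReal (dens f p x))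
      (volume.restrict (chartAt E2 p).target) := fun p =>
    ((hcont p).aemeasurable (chartAt E2 p).open_target.measurableSet).ennreal_ofReal
  refine ⟨?_, ⟨fun U hU hne h0 => ?_⟩, fun a b ha hb => ?_, fun b hb => ?_, fun p φ hφ => ?_⟩
  · have : IsLocallyFiniteMeasure μ := ⟨fun p => by
      obtain ⟨K, hK, hKp, hKt⟩ := exists_compact_subset (chartAt E2 p).open_target (ctr_mem p)
      have ho : IsOpen ((chartAt E2 p).source ∩ chartAt E2 p ⁻¹' interior K) :=
        (chartAt E2 p).isOpen_inter_preimage isOpen_interior
      refine ⟨_, ho.mem_nhds ⟨mem_chart_source E2 p, hKp⟩, ?_⟩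
      rw [hμ p _ ho.measurableSet inter_subset_left]
      refine lt_of_le_of_lt (lintegral_mono_set (t := K) ?_) ?_
      · rintro _ ⟨q, hq, rfl⟩
        exact interior_subset hq.2
      · obtain ⟨C, hC⟩ := (hK.image_of_continuousOn ((hcont p).mono hKt)).bddAbove
        exact setLIntegral_lt_top_of_le_nnreal hK.measure_lt_top.ne
          ⟨C.toNNReal, fun x hx => ENNReal.ofReal_le_ofReal (hC (mem_image_of_mem _ hx))⟩⟩
    infer_instance
  · obtain ⟨p, hp⟩ := hne
    have ho : IsOpen ((chartAt E2 p).source ∩ U) := (chartAt E2 p).open_source.inter hU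
    have h1 := measure_mono_null (inter_subset_right (s := (chartAt E2 p).source)) h0
    have ho' := (chartAt E2 p).isOpen_image_of_subset_source ho inter_subset_left
    have hsub : chartAt E2 p '' ((chartAt E2 p).source ∩ U) ⊆ (chartAt E2 p).target := by
      rintro _ ⟨q, hq, rfl⟩
      exact (chartAt E2 p).map_source hq.1
    rw [hμ p _ ho.measurableSet inter_subset_left,
      lintegral_eq_zero_iff' ((hD p).mono_set hsub)] at h1
    have h2 : ∀ᵐ x ∂(volume.restrict (chartAt E2 p '' ((chartAt E2 p).source ∩ U))), False := by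
      filter_upwards [h1, ae_restrict_mem ho'.measurableSet] with x hx hx'
      exact (ENNReal.ofReal_pos.2 (hpos p x (hsub hx'))).ne' hx
    rw [Filter.eventually_false_iff_eq_bot, ae_eq_bot, Measure.restrict_eq_zero] at h2
    exact (ho'.measure_pos volume ⟨_, p, ⟨mem_chart_source E2 p, hp⟩, rfl⟩).ne' h2
  · refine cont_RcMeas (gamAt f a b) (fun p => ?_) fun p q hq => (hI M f hf p q hq).2.1 a b ha hb
    have hx := ctr_mem p
    have m := fun i j => (cd_met hf p i j hx).continuousAt
    have u := fun i => (cd_pd (cd_loc ha p hx) i).continuousAt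
    have v := fun i => (cd_pd (cd_loc hb p hx) i).continuousAt
    exact ((((m 1 1).mul ((u 0).mul (v 0))).sub ((m 0 1).mul (((u 0).mul (v 1)).add
      ((u 1).mul (v 0))))).add ((m 0 0).mul ((u 1).mul (v 1)))).div
      ((cd_dens hf p hx (hpos p _ hx)).continuousAt.pow 2) (pow_pos (hpos p _ hx) 2).ne'
  · refine cont_RcMeas (lapAt f b) (fun p => ?_) fun p q hq => (hI M f hf p q hq).2.2 b hb
    have hx := ctr_mem p
    have hd := hpos p _ hx
    exact ((cd_pd (cd_flx0 hf hb p hx hd) 0).continuousAt.add
      (cd_pd (cd_flx1 hf hb p hx hd) 1).continuousAt).div (cd_dens hf p hx hd).continuousAt hd.ne'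
  · have ht := (chartAt E2 p).open_target.measurableSet
    have hs := (chartAt E2 p).open_source.measurableSet
    have hm : AEMeasurable (chartAt E2 p).symm ((volume.restrict (chartAt E2 p).target).withDensity
        fun x => ENNReal.ofReal (dens f p x)) :=
      ((chartAt E2 p).continuousOn_symm.aemeasurable ht).mono_ac
        (withDensity_absolutelyContinuous _ _)
    have key : μ.restrict (chartAt E2 p).source = Measure.map (chartAt E2 p).symm
        ((volume.restrict (chartAt E2 p).target).withDensity
          fun x => ENNReal.ofReal (dens f p x)) := by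
      ext S hS
      rw [Measure.map_apply_of_aemeasurable hm hS, withDensity_apply',
        Measure.restrict_restrict' ht, Measure.restrict_apply hS, inter_comm S,
        hμ p _ (hs.inter hS) inter_subset_left, (chartAt E2 p).image_source_inter_eq', inter_comm]
    rw [key, integral_map hm hφ.measurable.aestronglyMeasurable,
      integral_withDensity_eq_integral_toReal_smul₀ (hD p)
        (Filter.Eventually.of_forall fun _ => ENNReal.ofReal_lt_top)]
    refine setIntegral_congr_fun ht fun x hx => ?_
    simp only [ENNReal.toReal_ofReal (hpos p x hx).le, smul_eq_mul]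

end Pool.Agent.MP_943ae2_gt
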