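import Pool.Agent.MP_943ae2_gt.Rc.Chart

open scoped Manifold ContDiff RealInnerProductSpace Topology
open Set MeasureTheory

noncomputable section

namespace Pool.Agent.MP_943ae2_gt

theorem rc_quad (φ : E2 → E3) (x : E2) (s t : ℝ) :
    gm φ 1 1 x * s ^ 2 - 2 * gm φ 0 1 x * (s * t) + gm φ 0 0 x * t ^ 2 =
      ‖s • pd φ 1 x - t • pd φ 0 x‖ ^ 2 := by
  rw [← real_inner_self_eq_norm_sq]
  simp only [inner_sub_left, inner_sub_right, real_inner_smul_left, real_inner_smul_right]
  rw [real_inner_comm (pd φ 0 x) (pd φ 1 x)]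
  unfold gm
  ring

theorem rc_normal (u v : E3) (d : ℝ) (hd : 0 < d) (hs : d ^ 2 = ⟪u, u⟫ * ⟪v, v⟫ - ⟪u, v⟫ ^ 2) :
    ∃ n : Fin 3 → ℝ, n 0 ^ 2 + n 1 ^ 2 + n 2 ^ 2 = 1 ∧ ∀ i j : Fin 3,
      (⟪v, v⟫ * (u i * u j) - ⟪u, v⟫ * (u i * v j + v i * u j) + ⟪u, u⟫ * (v i * v j)) / d ^ 2 =
        (if i = j then 1 else 0) - n i * n j := by
  have hi : ∀ a b : E3, ⟪a, b⟫ = a 0 * b 0 + a 1 * b 1 + a 2 * b 2 := by
    intro a b
    simp [PiLp.inner_apply, Fin.sum_univ_three]
    ring
  simp only [hi] at hs ⊢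
  have hd0 := hd.ne'
  refine ⟨![(u 1 * v 2 - u 2 * v 1) / d, (u 2 * v 0 - u 0 * v 2) / d,
    (u 0 * v 1 - u 1 * v 0) / d], ?_, fun i j => ?_⟩
  · simp only [Matrix.cons_val]
    field_simp
    linear_combination -hs
  · fin_cases i <;> fin_cases j <;> simp <;> field_simp <;>
      first | linear_combination -hs | ring

theorem rGam : RGam := by
  intro M _ _ _ f hf p
  have dl : ∀ {a : M → ℝ}, Sm a → DifferentiableAt ℝ (loc a p) (ctr p) :=
    fun ha => rc_diff (cd_loc ha p (ctr_mem p))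
  refine ⟨fun a b => ?_, fun a a' b e => ?_, fun c b => ?_, fun a a' b ha ha' => ?_,
    fun a a' b ha ha' => ?_, fun a b G g ha hG => ?_, fun a b s t => ?_, ?_⟩
  · unfold Gam gamAt; ring
  · unfold Gam gamAt; rw [rc_congr (loc_ev e), rc_congr (loc_ev e)]
  · have h : ∀ i, pd (loc (fun _ : M => c) p) i (ctr p) = 0 := fun i => by
      change pd (fun _ => c) i _ = 0
      simp [pd]
    unfold Gam gamAt; simp [h]
  · have h : ∀ i, pd (loc (fun x => a x + a' x) p) i (ctr p) =
        pd (loc a p) i (ctr p) + pd (loc a' p) i (ctr p) := rc_add (dl ha) (dl ha')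
    unfold Gam gamAt; rw [h, h]; ring
  · have h : ∀ i, pd (loc (fun x => a x * a' x) p) i (ctr p) =
        loc a p (ctr p) * pd (loc a' p) i (ctr p) + pd (loc a p) i (ctr p) * loc a' p (ctr p) :=
      rc_mul (dl ha) (dl ha')
    unfold Gam gamAt; rw [h, h, loc_ctr, loc_ctr]; ring
  · have h : ∀ i, pd (loc (fun x => G (a x)) p) i (ctr p) = g * pd (loc a p) i (ctr p) :=
      rc_comp (a := loc a p) (G := G) (by rwa [loc_ctr]) (dl ha)
    unfold Gam gamAt; rw [h, h]; ring
  · have h := rc_quad (loc f p) (ctr p) (s * pd (loc a p) 0 (ctr p) + t * pd (loc b p) 0 (ctr p))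
      (s * pd (loc a p) 1 (ctr p) + t * pd (loc b p) 1 (ctr p))
    refine le_of_le_of_eq (div_nonneg (h ▸ sq_nonneg _) (sq_nonneg (dens f p (ctr p)))) ?_
    unfold Gam gamAt met gm; ring
  · obtain ⟨n, h1, h2⟩ := rc_normal (pd (loc f p) 0 (ctr p)) (pd (loc f p) 1 (ctr p)) _
      (dens_pos hf p) (dn_sq (φ := loc f p) (dens_pos hf p))
    refine ⟨n, h1, fun i j => ?_⟩
    have h : ∀ k l, pd (loc (fun x => f x k) p) l (ctr p) = pd (loc f p) l (ctr p) k :=
      fun k l => rc_proj (rc_diff (cd_loc hf.smooth p (ctr_mem p))) k l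
    rw [← h2]
    unfold Gam gamAt met
    simp only [h]

theorem rLap : RLap := by
  intro M _ _ _ f hf p
  have hd := dens_pos hf p
  have d0 : ∀ {a : M → ℝ}, Sm a → DifferentiableAt ℝ (flx0 f a p) (ctr p) :=
    fun ha => rc_diff (cd_flx0 hf ha p (ctr_mem p) hd)
  have d1 : ∀ {a : M → ℝ}, Sm a → DifferentiableAt ℝ (flx1 f a p) (ctr p) :=
    fun ha => rc_diff (cd_flx1 hf ha p (ctr_mem p) hd)
  refine ⟨fun a a' e => ?_, fun a a' ha ha' => ?_, fun a G G₁ g₂ ha hG hG₁ => ?_, fun i => ?_⟩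
  · have e0 : flx0 f a p =ᶠ[𝓝 (ctr p)] flx0 f a' p := by
      filter_upwards [rc_ev (loc_ev e) 0, rc_ev (loc_ev e) 1] with y h0 h1
      unfold flx0; rw [h0, h1]
    have e1 : flx1 f a p =ᶠ[𝓝 (ctr p)] flx1 f a' p := by
      filter_upwards [rc_ev (loc_ev e) 0, rc_ev (loc_ev e) 1] with y h0 h1
      unfold flx1; rw [h0, h1]
    simp only [lapBel_eq_lapAt, lapAt]
    rw [rc_congr e0, rc_congr e1]
  · have e : ∀ᶠ y in 𝓝 (ctr p), ∀ i, pd (loc (fun x => a x + a' x) p) i y =
        pd (loc a p) i y + pd (loc a' p) i y := by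
      filter_upwards [rc_evdiff (cd_loc ha p (ctr_mem p)), rc_evdiff (cd_loc ha' p (ctr_mem p))]
        with y h h'
      exact rc_add h h'
    have e0 : flx0 f (fun x => a x + a' x) p =ᶠ[𝓝 (ctr p)]
        fun y => flx0 f a p y + flx0 f a' p y := e.mono fun y h => by
      simp only [flx0, h]; ring
    have e1 : flx1 f (fun x => a x + a' x) p =ᶠ[𝓝 (ctr p)]
        fun y => flx1 f a p y + flx1 f a' p y := e.mono fun y h => by
      simp only [flx1, h]; ring
    simp only [lapBel_eq_lapAt, lapAt]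
    rw [rc_congr e0, rc_congr e1, rc_add (d0 ha) (d0 ha'), rc_add (d1 ha) (d1 ha')]
    ring
  · have ca := cd_loc ha p (ctr_mem p)
    rw [← loc_ctr a p] at hG hG₁
    have e : ∀ᶠ y in 𝓝 (ctr p), ∀ i, pd (loc (fun x => G (a x)) p) i y =
        G₁ (loc a p y) * pd (loc a p) i y := by
      filter_upwards [rc_evdiff ca, ca.continuousAt.eventually hG] with y h h'
      exact rc_comp (G := G) h' h
    have e0 : flx0 f (fun x => G (a x)) p =ᶠ[𝓝 (ctr p)]
        fun y => G₁ (loc a p y) * flx0 f a p y := e.mono fun y h => by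
      simp only [flx0, h]; ring
    have e1 : flx1 f (fun x => G (a x)) p =ᶠ[𝓝 (ctr p)]
        fun y => G₁ (loc a p y) * flx1 f a p y := e.mono fun y h => by
      simp only [flx1, h]; ring
    have dG : DifferentiableAt ℝ (fun y => G₁ (loc a p y)) (ctr p) :=
      hG₁.differentiableAt.comp _ (rc_diff ca)
    simp only [lapBel_eq_lapAt, lapAt]
    rw [rc_congr e0, rc_congr e1, rc_mul dG (d0 ha), rc_mul dG (d1 ha),
      rc_comp hG₁ (rc_diff ca), rc_comp hG₁ (rc_diff ca), loc_ctr]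
    unfold Gam gamAt
    have hd0 := hd.ne'
    conv_lhs => enter [1, 1, 2]; unfold flx0
    conv_lhs => enter [1, 2, 2]; unfold flx1
    field_simp
    ring
  · have cφ := cd_loc hf.smooth p (ctr_mem p)
    have hp : ∀ w : E3, ⟪w, EuclideanSpace.single i (1 : ℝ)⟫ = w i := fun w => by
      simp [EuclideanSpace.inner_single_right]
    have cv : ContDiffAt ℝ ∞ (fun y => loc f p y i) (ctr p) :=
      (EuclideanSpace.proj i : E3 →L[ℝ] ℝ).contDiff.contDiffAt.comp _ cφ
    have h2 : ∀ k l, pd (pd (fun y => loc f p y i) k) l (ctr p) =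
        pd (pd (loc f p) k) l (ctr p) i := by
      intro k l
      have e : pd (fun y => loc f p y i) k =ᶠ[𝓝 (ctr p)] fun y => pd (loc f p) k y i :=
        (rc_evdiff cφ).mono fun y hy => rc_proj hy i k
      rw [rc_congr e, rc_proj (rc_diff (cd_pd cφ k))]
    change lapC (loc f p) (fun y => loc f p y i) (ctr p) = 0
    rw [lapC_eq cφ cv hd (hf.mean p) (T := EuclideanSpace.single i 1)
      fun k => by rw [hp, rc_proj (rc_diff cφ)]]
    simp [qq, h2, hp]

theorem rConst : RConst := by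
  intro M _ _ _ _ f hf u hu h0
  refine fun p q => IsLocallyConstant.apply_eq_of_preconnectedSpace ?_ p q
  refine (IsLocallyConstant.iff_eventually_eq u).2 fun p => ?_
  obtain ⟨ε, hε, hb⟩ := Metric.isOpen_iff.1 (chartAt E2 p).open_target _ (ctr_mem p)
  have hz : ∀ x ∈ (chartAt E2 p).target, fderiv ℝ (loc u p) x = 0 := by
    intro x hx
    obtain ⟨hd, hg, -⟩ := rInv M f hf p _ ((chartAt E2 p).map_target hx)
    have h1 := hg u u hu hu
    rw [h0, (chartAt E2 p).right_inv hx] at h1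
    rw [(chartAt E2 p).right_inv hx] at hd
    have hD : 0 < gm (loc f p) 0 0 x * gm (loc f p) 1 1 x - gm (loc f p) 0 1 x ^ 2 :=
      Real.sqrt_pos.1 hd
    have h2 : gm (loc f p) 1 1 x * pd (loc u p) 0 x ^ 2 -
        2 * gm (loc f p) 0 1 x * (pd (loc u p) 0 x * pd (loc u p) 1 x) +
        gm (loc f p) 0 0 x * pd (loc u p) 1 x ^ 2 = 0 := by
      have := (div_eq_zero_iff.1 h1).resolve_right (pow_ne_zero 2 hd.ne')
      unfold met at this
      unfold gm
      linear_combination this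
    have a0 : pd (loc u p) 0 x = 0 := by
      by_contra hc
      have := mul_pos hD (sq_pos_of_ne_zero hc)
      have h3 := sq_nonneg (gm (loc f p) 0 0 x * pd (loc u p) 1 x -
        gm (loc f p) 0 1 x * pd (loc u p) 0 x)
      have h4 := congrArg (gm (loc f p) 0 0 x * ·) h2
      simp only [mul_zero] at h4
      nlinarith
    have a1 : pd (loc u p) 1 x = 0 := by
      by_contra hc
      have := mul_pos hD (sq_pos_of_ne_zero hc)
      have h3 := sq_nonneg (gm (loc f p) 1 1 x * pd (loc u p) 0 x -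
        gm (loc f p) 0 1 x * pd (loc u p) 1 x)
      have h4 := congrArg (gm (loc f p) 1 1 x * ·) h2
      simp only [mul_zero] at h4
      nlinarith
    ext w
    have hw : w = w 0 • EuclideanSpace.single 0 1 + w 1 • EuclideanSpace.single 1 1 := by
      ext k; fin_cases k <;> simp
    unfold pd at a0 a1
    rw [hw, map_add, map_smul, map_smul, a0, a1]
    simp
  filter_upwards [(chartAt E2 p).open_source.mem_nhds (mem_chart_source E2 p),
    ((chartAt E2 p).continuousAt (mem_chart_source E2 p)).eventually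
      (Metric.ball_mem_nhds _ hε)] with q h1 h2
  have := Metric.isOpen_ball.is_const_of_fderiv_eq_zero (𝕜 := ℝ) (f := loc u p)
    (convex_ball (ctr p) ε).isPreconnected
    (fun y hy => (rc_diff (cd_loc hu p (hb hy))).differentiableWithinAt)
    (fun y hy => hz y (hb hy)) h2 (Metric.mem_ball_self hε)
  rw [loc_ctr] at this
  rw [← this]
  simp only [loc, Function.comp_apply]
  rw [(chartAt E2 p).left_inv h1]

end Pool.Agent.MP_943ae2_gt
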