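import Pool.Agent.MP_943ae2_gt.Rc.Defs

open scoped Manifold ContDiff RealInnerProductSpace Topology
open Set MeasureTheory

noncomputable section

namespace Pool.Agent.MP_943ae2_gt

section
variable {M : Type} [TopologicalSpace M] [ChartedSpace E2 M]

/-- smooth real functions on `M` -/
abbrev Sm (a : M → ℝ) : Prop := ContMDiff (𝓡 2) 𝓘(ℝ, ℝ) ∞ a

/-- `⟨∇a, ∇b⟩` in the chart at `p`, at the point `x` -/
def gamAt (f : M → E3) (a b : M → ℝ) (p : M) (x : E2) : ℝ :=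
  (met f p 1 1 x * (pd (loc a p) 0 x * pd (loc b p) 0 x) -
    met f p 0 1 x * (pd (loc a p) 0 x * pd (loc b p) 1 x + pd (loc a p) 1 x * pd (loc b p) 0 x) +
    met f p 0 0 x * (pd (loc a p) 1 x * pd (loc b p) 1 x)) / dens f p x ^ 2

def flx0 (f : M → E3) (b : M → ℝ) (p : M) (x : E2) : ℝ :=
  (met f p 1 1 x * pd (loc b p) 0 x - met f p 0 1 x * pd (loc b p) 1 x) / dens f p x

def flx1 (f : M → E3) (b : M → ℝ) (p : M) (x : E2) : ℝ :=
  (met f p 0 0 x * pd (loc b p) 1 x - met f p 0 1 x * pd (loc b p) 0 x) / dens f p x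

/-- `Δ b` in the chart at `p`, at the point `x` -/
def lapAt (f : M → E3) (b : M → ℝ) (p : M) (x : E2) : ℝ :=
  (pd (flx0 f b p) 0 x + pd (flx1 f b p) 1 x) / dens f p x

/-- `⟨∇a, ∇b⟩` at `p` -/
def Gam (f : M → E3) (a b : M → ℝ) (p : M) : ℝ := gamAt f a b p (ctr p)

theorem lapBel_eq_lapAt (f : M → E3) (b : M → ℝ) (p : M) :
    lapBel f b p = lapAt f b p (ctr p) := rfl

theorem ctr_mem (p : M) : ctr p ∈ (chartAt E2 p).target := mem_chart_target E2 p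

theorem loc_ctr {F : Type} (f : M → F) (p : M) : loc f p (ctr p) = f p := by
  simp [loc, ctr]

theorem cd_pd {F : Type} [NormedAddCommGroup F] [NormedSpace ℝ F] {g : E2 → F} {x : E2}
    (h : ContDiffAt ℝ ∞ g x) (i : Fin 2) : ContDiffAt ℝ ∞ (pd g i) x :=
  (h.fderiv_right (m := ∞) (by simp)).clm_apply contDiffAt_const

variable [IsManifold (𝓡 2) ∞ M]

theorem cd_loc {F : Type} [NormedAddCommGroup F] [NormedSpace ℝ F] {a : M → F}
    (ha : ContMDiff (𝓡 2) 𝓘(ℝ, F) ∞ a) (p : M) {x : E2} (hx : x ∈ (chartAt E2 p).target) :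
    ContDiffAt ℝ ∞ (loc a p) x := by
  have h1 : ContMDiffAt (𝓡 2) (𝓡 2) ∞ (chartAt E2 p).symm x :=
    (contMDiffOn_chart_symm (I := 𝓡 2) (n := ∞) (x := p)).contMDiffAt
      ((chartAt E2 p).open_target.mem_nhds hx)
  exact (ContMDiffAt.comp x (ha _) h1).contDiffAt

theorem cd_met {f : M → E3} (hf : IsMinimal f) (p : M) (i j : Fin 2) {x : E2}
    (hx : x ∈ (chartAt E2 p).target) : ContDiffAt ℝ ∞ (met f p i j) x :=
  (cd_pd (cd_loc hf.smooth p hx) i).inner ℝ (cd_pd (cd_loc hf.smooth p hx) j)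

theorem cd_dens {f : M → E3} (hf : IsMinimal f) (p : M) {x : E2}
    (hx : x ∈ (chartAt E2 p).target) (hd : 0 < dens f p x) : ContDiffAt ℝ ∞ (dens f p) x :=
  (((cd_met hf p 0 0 hx).mul (cd_met hf p 1 1 hx)).sub ((cd_met hf p 0 1 hx).pow 2)).sqrt
    (Real.sqrt_pos.1 hd).ne'

theorem cd_flx0 {f : M → E3} (hf : IsMinimal f) {b : M → ℝ} (hb : Sm b) (p : M) {x : E2}
    (hx : x ∈ (chartAt E2 p).target) (hd : 0 < dens f p x) : ContDiffAt ℝ ∞ (flx0 f b p) x :=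
  (((cd_met hf p 1 1 hx).mul (cd_pd (cd_loc hb p hx) 0)).sub
    ((cd_met hf p 0 1 hx).mul (cd_pd (cd_loc hb p hx) 1))).div (cd_dens hf p hx hd) hd.ne'

theorem cd_flx1 {f : M → E3} (hf : IsMinimal f) {b : M → ℝ} (hb : Sm b) (p : M) {x : E2}
    (hx : x ∈ (chartAt E2 p).target) (hd : 0 < dens f p x) : ContDiffAt ℝ ∞ (flx1 f b p) x :=
  (((cd_met hf p 0 0 hx).mul (cd_pd (cd_loc hb p hx) 1)).sub
    ((cd_met hf p 0 1 hx).mul (cd_pd (cd_loc hb p hx) 0))).div (cd_dens hf p hx hd) hd.ne'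

end

/-- chart independence -/
def RInv : Prop := ∀ (M : Type) [TopologicalSpace M] [ChartedSpace E2 M] [IsManifold (𝓡 2) ∞ M]
  (f : M → E3), IsMinimal f → ∀ p q : M, q ∈ (chartAt E2 p).source →
    0 < dens f p (chartAt E2 p q) ∧
    (∀ a b, Sm a → Sm b → gamAt f a b p (chartAt E2 p q) = Gam f a b q) ∧
    (∀ b, Sm b → lapAt f b p (chartAt E2 p q) = lapBel f b q)

/-- pointwise rules for `Gam` -/
def RGam : Prop := ∀ (M : Type) [TopologicalSpace M] [ChartedSpace E2 M] [IsManifold (𝓡 2) ∞ M]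
  (f : M → E3), IsMinimal f → ∀ p : M,
    (∀ a b, Gam f a b p = Gam f b a p) ∧
    (∀ a a' b, a =ᶠ[𝓝 p] a' → Gam f a b p = Gam f a' b p) ∧
    (∀ (c : ℝ) b, Gam f (fun _ => c) b p = 0) ∧
    (∀ a a' b, Sm a → Sm a' → Gam f (fun x => a x + a' x) b p = Gam f a b p + Gam f a' b p) ∧
    (∀ a a' b, Sm a → Sm a' →
      Gam f (fun x => a x * a' x) b p = a p * Gam f a' b p + a' p * Gam f a b p) ∧
    (∀ a b (G : ℝ → ℝ) (g : ℝ), Sm a → HasDerivAt G g (a p) →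
      Gam f (fun x => G (a x)) b p = g * Gam f a b p) ∧
    (∀ a b (s t : ℝ), 0 ≤ s ^ 2 * Gam f a a p + 2 * s * t * Gam f a b p + t ^ 2 * Gam f b b p) ∧
    ∃ n : Fin 3 → ℝ, n 0 ^ 2 + n 1 ^ 2 + n 2 ^ 2 = 1 ∧ ∀ i j : Fin 3,
      Gam f (fun x => f x i) (fun x => f x j) p = (if i = j then 1 else 0) - n i * n j

/-- pointwise rules for the Laplacian -/
def RLap : Prop := ∀ (M : Type) [TopologicalSpace M] [ChartedSpace E2 M] [IsManifold (𝓡 2) ∞ M]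
  (f : M → E3), IsMinimal f → ∀ p : M,
    (∀ a a' : M → ℝ, a =ᶠ[𝓝 p] a' → lapBel f a p = lapBel f a' p) ∧
    (∀ a a', Sm a → Sm a' → lapBel f (fun x => a x + a' x) p = lapBel f a p + lapBel f a' p) ∧
    (∀ a (G G₁ : ℝ → ℝ) (g₂ : ℝ), Sm a → (∀ᶠ t in 𝓝 (a p), HasDerivAt G (G₁ t) t) →
      HasDerivAt G₁ g₂ (a p) →
      lapBel f (fun x => G (a x)) p = G₁ (a p) * lapBel f a p + g₂ * Gam f a a p) ∧
    ∀ i : Fin 3, lapBel f (fun x => f x i) p = 0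

/-- a function with vanishing gradient is constant -/
def RConst : Prop := ∀ (M : Type) [TopologicalSpace M] [ChartedSpace E2 M]
  [IsManifold (𝓡 2) ∞ M] [ConnectedSpace M] (f : M → E3), IsMinimal f → ∀ u, Sm u →
    (∀ p, Gam f u u p = 0) → ∀ p q, u p = u q

/-- the area measure -/
def RMeas : Prop := ∀ (M : Type) [TopologicalSpace M] [ChartedSpace E2 M] [IsManifold (𝓡 2) ∞ M]
  [T2Space M] [MeasurableSpace M] [BorelSpace M] (f : M → E3) (μ : Measure M),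
  IsMinimal f → IsArea f μ →
    IsFiniteMeasureOnCompacts μ ∧ μ.IsOpenPosMeasure ∧
    (∀ a b, Sm a → Sm b → Continuous (Gam f a b)) ∧ (∀ b, Sm b → Continuous (lapBel f b)) ∧
    ∀ (p : M) (φ : M → ℝ), Continuous φ → ∫ q in (chartAt E2 p).source, φ q ∂μ =
      ∫ x in (chartAt E2 p).target, dens f p x * φ ((chartAt E2 p).symm x)

/-- Green's formula -/
def RGreen : Prop := ∀ (M : Type) [TopologicalSpace M] [ChartedSpace E2 M]
  [IsManifold (𝓡 2) ∞ M] [T2Space M] [MeasurableSpace M] [BorelSpace M] (f : M → E3)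
  (μ : Measure M), IsMinimal f → IsArea f μ → ∀ a b, Sm a → Sm b → HasCompactSupport a →
    ∫ p, (a p * lapBel f b p + Gam f a b p) ∂μ = 0

/-- the exhaustion function -/
def RExh : Prop := ∀ (M : Type) [TopologicalSpace M] [ChartedSpace E2 M] [IsManifold (𝓡 2) ∞ M]
  (f : M → E3), IsMinimal f → (∀ K, IsCompact K → IsCompact (f ⁻¹' K)) →
  ∀ (U V : Set M) (C : ℝ), IsOpen U → IsOpen V → Disjoint U V → IsCompact (U ∪ V)ᶜ →
    (∀ p ∈ U, -C * Real.log (2 + f p 0 ^ 2 + f p 1 ^ 2) ≤ f p 2) →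
    (∀ p ∈ V, f p 2 ≤ C * Real.log (2 + f p 0 ^ 2 + f p 1 ^ 2)) →
    ∃ (S : M → ℝ) (K : Set M) (c : ℝ), Sm S ∧ IsCompact K ∧ 0 ≤ c ∧
      (∀ t, IsCompact {p | S p ≤ t}) ∧ ∀ p ∉ K, |f p 2| ≤ S p ∧
        lapBel f S p ≤ c * (1 / (1 + f p 0 ^ 2 + f p 1 ^ 2)) ∧
        (f p 2 ^ 2 < f p 0 ^ 2 + f p 1 ^ 2 → lapBel f S p ≤ 0)

/-- the energy argument: an exhaustion function with controlled flux forces constancy -/
def RIter : Prop := ∀ (M : Type) [TopologicalSpace M] [ChartedSpace E2 M]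
  [IsManifold (𝓡 2) ∞ M] [T2Space M] [ConnectedSpace M] [MeasurableSpace M] [BorelSpace M]
  (f : M → E3) (μ : Measure M), IsMinimal f → IsArea f μ → ∀ (S : M → ℝ) (e : ℕ → ℝ), Sm S →
    (∀ t, IsCompact {p | S p ≤ t}) → (∀ k, 0 < e k) → ¬ Summable (fun k => 1 / e k) →
    (∀ (k : ℕ) (η : M → ℝ), Continuous η → (∀ p, 0 ≤ η p ∧ η p ≤ 1) →
      (∀ p, (k : ℝ) ≤ S p → η p = 0) → ∫ p, η p * lapBel f S p ∂μ ≤ e k) →
    ∀ u, Sm u → (∀ p, 0 < u p) → (∀ p, lapBel f u p ≤ 0) → ∀ p q, u p = u q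

end Pool.Agent.MP_943ae2_gt
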